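import Mathlib

/-!
# Dimensions modulo a subspace, powers of a subspace of an algebra, the `W`-adic filtration

`qd M N` is the dimension of `M` modulo `N`.  `Al W` is the subalgebra generated by `W`,
`mp W t = W ^ t * Al W`, `dq W t` is the dimension of `Al W` modulo `mp W t`.
-/

set_option autoImplicit false

namespace Pool.Agent.ALB

open Submodule Module

section Dim

variable {k V V' : Type*} [Field k] [AddCommGroup V] [Module k V] [AddCommGroup V'] [Module k V']

/-- The dimension of `M` modulo `N`. -/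
noncomputable def qd (M N : Submodule k V) : ℕ := finrank k (M.map N.mkQ)

theorem finrank_map_add (P : Submodule k V) [FiniteDimensional k P] (g : V →ₗ[k] V') :
    finrank k (P.map g) + finrank k (P ⊓ LinearMap.ker g : Submodule k V) = finrank k P := by
  have h := LinearMap.finrank_range_add_finrank_ker (g.domRestrict P)
  rw [LinearMap.range_domRestrict] at h
  rw [← h]
  congr 1
  have e : (LinearMap.ker (g.domRestrict P)).map P.subtype = P ⊓ LinearMap.ker g := by
    ext x
    simp only [Submodule.mem_map, LinearMap.mem_ker, LinearMap.domRestrict_apply,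
      Submodule.subtype_apply, Subtype.exists, exists_and_right, exists_eq_right,
      Submodule.mem_inf]
    constructor
    · rintro ⟨h1, h2⟩
      exact ⟨h1, h2⟩
    · rintro ⟨h1, h2⟩
      exact ⟨h1, h2⟩
  rw [← e]
  exact (LinearEquiv.finrank_eq (Submodule.equivMapOfInjective P.subtype
    P.injective_subtype _)).symm

theorem qd_add_finrank_inf (M N : Submodule k V) [FiniteDimensional k M] :
    qd M N + finrank k (M ⊓ N : Submodule k V) = finrank k M := by
  have h := finrank_map_add M N.mkQ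
  rw [Submodule.ker_mkQ] at h
  exact h

theorem qd_le_finrank (M N : Submodule k V) [FiniteDimensional k M] : qd M N ≤ finrank k M := by
  have := qd_add_finrank_inf M N
  omega

theorem qd_sup_right (M N : Submodule k V) : (M ⊔ N).map N.mkQ = M.map N.mkQ := by
  rw [Submodule.map_sup]
  rw [Submodule.mkQ_map_self, sup_bot_eq]

theorem qd_mono_left {M M' N : Submodule k V} (h : M ≤ M') [FiniteDimensional k (M'.map N.mkQ)] :
    qd M N ≤ qd M' N :=
  Submodule.finrank_mono (Submodule.map_mono h)

theorem qd_add {M M' N : Submodule k V} (h : N ≤ M') (h' : M' ≤ M)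
    [FiniteDimensional k (M.map N.mkQ)] : qd M M' + qd M' N = qd M N := by
  have h1 := finrank_map_add (M.map N.mkQ) (Submodule.factor h)
  have e1 : (M.map N.mkQ).map (Submodule.factor h) = M.map M'.mkQ := by
    rw [← Submodule.map_comp]
    congr 1
  have e2 : M.map N.mkQ ⊓ LinearMap.ker (Submodule.factor h) = M'.map N.mkQ := by
    ext x
    obtain ⟨x, rfl⟩ := N.mkQ_surjective x
    simp only [Submodule.mem_inf, LinearMap.mem_ker]
    have e3 : Submodule.factor h (N.mkQ x) = M'.mkQ x := rfl
    rw [e3, Submodule.mkQ_apply, Submodule.mkQ_apply, Submodule.Quotient.mk_eq_zero]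
    constructor
    · rintro ⟨_, h3⟩
      exact Submodule.mem_map_of_mem h3
    · rintro ⟨y, hy, hxy⟩
      have h4 : x - y ∈ N := by
        rw [← Submodule.Quotient.mk_eq_zero, Submodule.Quotient.mk_sub, sub_eq_zero]
        exact hxy.symm
      have h5 : x ∈ M' := by
        have : x = (x - y) + y := by abel
        rw [this]
        exact M'.add_mem (h h4) hy
      exact ⟨Submodule.mem_map_of_mem (h' h5), h5⟩
  rw [e1, e2] at h1
  exact h1

theorem qd_anti_right {M N N' : Submodule k V} (h : N ≤ N') [FiniteDimensional k (M.map N.mkQ)] :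
    qd M N' ≤ qd M N := by
  have h1 := finrank_map_add (M.map N.mkQ) (Submodule.factor h)
  have e1 : (M.map N.mkQ).map (Submodule.factor h) = M.map N'.mkQ := by
    rw [← Submodule.map_comp]
    congr 1
  rw [e1] at h1
  unfold qd
  omega

theorem qd_inf_le (M N N' : Submodule k V) [FiniteDimensional k M] :
    qd M (N ⊓ N') ≤ qd M N + qd M N' := by
  have h1 := qd_add_finrank_inf M N
  have h2 := qd_add_finrank_inf M N'
  have h3 := qd_add_finrank_inf M (N ⊓ N')
  have h4 := Submodule.finrank_sup_add_finrank_inf_eq (M ⊓ N) (M ⊓ N')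
  have h5 : M ⊓ N ⊓ (M ⊓ N') = M ⊓ (N ⊓ N') := by
    rw [← inf_inf_distrib_left]
  rw [h5] at h4
  have h6 : finrank k (M ⊓ N ⊔ M ⊓ N' : Submodule k V) ≤ finrank k M :=
    Submodule.finrank_mono (sup_le inf_le_left inf_le_left)
  omega

end Dim

section Alg

variable {k A : Type*} [Field k] [CommRing A] [Algebra k A]

/-- The subalgebra generated by `W`, as a subspace. -/
def Al (W : Submodule k A) : Submodule k A :=
  Subalgebra.toSubmodule (Algebra.adjoin k (W : Set A))

/-- The `t`-th power of the ideal `W A` of `A = k[W]`, as a subspace. -/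
def mp (W : Submodule k A) (t : ℕ) : Submodule k A := W ^ t * Al W

/-- The dimension of `A` modulo the `t`-th power of `W A`. -/
noncomputable def dq (W : Submodule k A) (t : ℕ) : ℕ := qd (Al W) (mp W t)

theorem one_le_Al (W : Submodule k A) : 1 ≤ Al W := by
  rw [Submodule.one_le]
  exact (Algebra.adjoin k (W : Set A)).one_mem

theorem le_Al (W : Submodule k A) : W ≤ Al W := fun _ hx => Algebra.subset_adjoin hx

theorem Al_mul_Al (W : Submodule k A) : Al W * Al W = Al W := by
  refine le_antisymm ?_ ?_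
  · rw [Submodule.mul_le]
    intro x hx y hy
    exact (Algebra.adjoin k (W : Set A)).mul_mem hx hy
  · calc Al W = Al W * 1 := (mul_one _).symm
      _ ≤ Al W * Al W := mul_le_mul' le_rfl (one_le_Al W)

theorem pow_le_Al (W : Submodule k A) (t : ℕ) : W ^ t ≤ Al W := by
  induction t with
  | zero => rw [pow_zero]; exact one_le_Al W
  | succ t ih =>
    rw [pow_succ]
    exact (mul_le_mul' ih (le_Al W)).trans (Al_mul_Al W).le

theorem one_sup_pow_le_Al (W : Submodule k A) (t : ℕ) : (1 ⊔ W) ^ t ≤ Al W := by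
  induction t with
  | zero => rw [pow_zero]; exact one_le_Al W
  | succ t ih =>
    rw [pow_succ]
    exact (mul_le_mul' ih (sup_le (one_le_Al W) (le_Al W))).trans (Al_mul_Al W).le

theorem mp_zero (W : Submodule k A) : mp W 0 = Al W := by
  rw [mp, pow_zero, one_mul]

theorem mp_le_Al (W : Submodule k A) (t : ℕ) : mp W t ≤ Al W :=
  (mul_le_mul' (pow_le_Al W t) le_rfl).trans (Al_mul_Al W).le

theorem pow_le_mp (W : Submodule k A) (t : ℕ) : W ^ t ≤ mp W t := by
  calc W ^ t = W ^ t * 1 := (mul_one _).symm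
    _ ≤ W ^ t * Al W := mul_le_mul' le_rfl (one_le_Al W)

theorem mul_mp (W : Submodule k A) (t : ℕ) : W * mp W t = mp W (t + 1) := by
  rw [mp, mp, ← mul_assoc, ← pow_succ']

theorem mp_mul_mp (W : Submodule k A) (s t : ℕ) : mp W s * mp W t = mp W (s + t) := by
  rw [mp, mp, mp, mul_mul_mul_comm, Al_mul_Al, pow_add]

theorem mp_succ_le (W : Submodule k A) (t : ℕ) : mp W (t + 1) ≤ mp W t := by
  rw [mp, mp, pow_succ, mul_assoc]
  exact mul_le_mul' le_rfl ((mul_le_mul' (le_Al W) le_rfl).trans (Al_mul_Al W).le)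

theorem mp_anti (W : Submodule k A) : Antitone (mp W) :=
  antitone_nat_of_succ_le (mp_succ_le W)

theorem one_sup_pow_mono (W : Submodule k A) : Monotone fun t : ℕ => (1 ⊔ W) ^ t := by
  refine monotone_nat_of_le_succ fun t => ?_
  calc (1 ⊔ W) ^ t = (1 ⊔ W) ^ t * 1 := (mul_one _).symm
    _ ≤ (1 ⊔ W) ^ t * (1 ⊔ W) := mul_le_mul' le_rfl le_sup_left
    _ = (1 ⊔ W) ^ (t + 1) := (pow_succ _ _).symm

theorem pow_le_one_sup_pow (W : Submodule k A) (t : ℕ) : W ^ t ≤ (1 ⊔ W) ^ t := by
  induction t with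
  | zero => simp
  | succ t ih =>
    rw [pow_succ, pow_succ]
    exact mul_le_mul' ih le_sup_right

theorem Al_le_one_sup (W : Submodule k A) : Al W ≤ 1 ⊔ W * Al W := by
  intro x hx'
  change x ∈ Algebra.adjoin k (W : Set A) at hx'
  induction hx' using Algebra.adjoin_induction with
  | mem x hx =>
    refine Submodule.mem_sup_right ?_
    have : x = x * 1 := (mul_one x).symm
    rw [this]
    exact Submodule.mul_mem_mul hx (one_le.mp (one_le_Al W))
  | algebraMap c =>
    exact Submodule.mem_sup_left (Submodule.algebraMap_mem c)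
  | add x y hx hy h1 h2 => exact Submodule.add_mem _ h1 h2
  | mul x y hx hy h1 h2 =>
    have h3 := Submodule.mul_mem_mul h1 h2
    refine (?_ : (1 ⊔ W * Al W) * (1 ⊔ W * Al W) ≤ 1 ⊔ W * Al W) h3
    rw [Submodule.sup_mul, one_mul, Submodule.mul_sup, mul_one]
    refine sup_le le_rfl (sup_le le_sup_right (le_sup_of_le_right ?_))
    rw [mul_assoc]
    refine mul_le_mul' le_rfl ?_
    refine (mul_le_mul' le_rfl (?_ : W * Al W ≤ Al W)).trans (Al_mul_Al W).le
    exact (mul_le_mul' (le_Al W) le_rfl).trans (Al_mul_Al W).le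

theorem Al_le (W : Submodule k A) (t : ℕ) : Al W ≤ (1 ⊔ W) ^ t ⊔ mp W (t + 1) := by
  induction t with
  | zero =>
    rw [pow_zero, zero_add, mp, pow_one]
    exact Al_le_one_sup W
  | succ t ih =>
    refine (Al_le_one_sup W).trans (sup_le ?_ ?_)
    · refine le_sup_of_le_left ?_
      have := one_sup_pow_mono W (Nat.zero_le (t + 1))
      simpa using this
    · refine (mul_le_mul' le_rfl ih).trans ?_
      rw [Submodule.mul_sup, mul_mp]
      refine sup_le_sup ?_ le_rfl
      rw [pow_succ']
      exact mul_le_mul' le_sup_right le_rfl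

theorem map_mkQ_eq (W : Submodule k A) {s t : ℕ} (h : t ≤ s + 1) :
    (Al W).map (mp W t).mkQ = ((1 ⊔ W) ^ s).map (mp W t).mkQ := by
  refine le_antisymm ?_ (Submodule.map_mono (one_sup_pow_le_Al W s))
  rw [← qd_sup_right ((1 ⊔ W) ^ s)]
  refine Submodule.map_mono ((Al_le W s).trans (sup_le_sup le_rfl (mp_anti W h)))

theorem finite_pow (W : Submodule k A) [FiniteDimensional k W] (t : ℕ) :
    FiniteDimensional k (W ^ t : Submodule k A) :=
  Module.Finite.iff_fg.mpr (Submodule.FG.pow (Module.Finite.iff_fg.mp inferInstance) t)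

theorem finite_one_sup (W : Submodule k A) [FiniteDimensional k W] :
    FiniteDimensional k (1 ⊔ W : Submodule k A) := by
  refine Module.Finite.iff_fg.mpr (Submodule.FG.sup ?_ (Module.Finite.iff_fg.mp inferInstance))
  rw [Submodule.one_eq_span]
  exact Submodule.fg_span_singleton _

theorem finite_one_sup_pow (W : Submodule k A) [FiniteDimensional k W] (t : ℕ) :
    FiniteDimensional k ((1 ⊔ W) ^ t : Submodule k A) := by
  have := finite_one_sup W
  exact finite_pow _ t

theorem finite_map_mkQ (W : Submodule k A) [FiniteDimensional k W] (t : ℕ) :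
    FiniteDimensional k ((Al W).map (mp W t).mkQ) := by
  rw [map_mkQ_eq W (Nat.le_succ t)]
  have := finite_one_sup_pow W t
  infer_instance

theorem dq_le (W : Submodule k A) [FiniteDimensional k W] {s t : ℕ} (h : t ≤ s + 1) :
    dq W t ≤ finrank k ((1 ⊔ W) ^ s : Submodule k A) := by
  rw [dq, qd, map_mkQ_eq W h]
  have := finite_one_sup_pow W s
  exact qd_le_finrank _ _

/-- `dim W^t + dim A/m^t ≤ dim (k + W)^t`. -/
theorem finrank_pow_add_dq_le (W : Submodule k A) [FiniteDimensional k W] (t : ℕ) :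
    finrank k (W ^ t : Submodule k A) + dq W t ≤ finrank k ((1 ⊔ W) ^ t : Submodule k A) := by
  have := finite_one_sup_pow W t
  have h := qd_add_finrank_inf ((1 ⊔ W) ^ t) (mp W t)
  have h1 : dq W t = qd ((1 ⊔ W) ^ t) (mp W t) := by
    rw [dq, qd, qd, map_mkQ_eq W (Nat.le_succ t)]
  have h2 : finrank k (W ^ t : Submodule k A) ≤
      finrank k ((1 ⊔ W) ^ t ⊓ mp W t : Submodule k A) := by
    refine Submodule.finrank_mono ?_
    exact le_inf (pow_le_one_sup_pow W t) (pow_le_mp W t)
  omega

/-- The graded pieces of the `W`-adic filtration. -/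
theorem sum_qd_mp (W : Submodule k A) [FiniteDimensional k W] (T : ℕ) :
    ∑ t ∈ Finset.range T, qd (mp W t) (mp W (t + 1)) = dq W T := by
  induction T with
  | zero =>
    rw [Finset.sum_range_zero, dq, mp_zero, qd]
    rw [Submodule.mkQ_map_self, finrank_bot]
  | succ T ih =>
    rw [Finset.sum_range_succ, ih]
    have := finite_map_mkQ W (T + 1)
    exact qd_add (mp_succ_le W T) (mp_le_Al W T)

/-- The filtration of Step 5: `G 0 = 0`, `G (t+1) = F_t ⊓ m^(t+2)`. -/
def Gf (W : Submodule k A) : ℕ → Submodule k A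
  | 0 => ⊥
  | (t + 1) => (1 ⊔ W) ^ t ⊓ mp W (t + 2)

theorem mul_Gf (W : Submodule k A) (t : ℕ) : W * Gf W t ≤ Gf W (t + 1) := by
  cases t with
  | zero => simp [Gf]
  | succ t =>
    simp only [Gf]
    refine le_inf ?_ ?_
    · refine (mul_le_mul' le_rfl inf_le_left).trans ?_
      rw [pow_succ']
      exact mul_le_mul' le_sup_right le_rfl
    · refine (mul_le_mul' le_rfl inf_le_right).trans ?_
      rw [mul_mp]

theorem sum_qd_Gf_le (W : Submodule k A) [FiniteDimensional k W] (T : ℕ) :
    ∑ t ∈ Finset.range (T + 1), qd (W ^ t) (Gf W t) ≤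
      2 * finrank k ((1 ⊔ W) ^ T : Submodule k A) := by
  have hf := finite_pow W
  have hf1 := finite_one_sup_pow W
  -- the numbers `dim F_t - dim F_(t-1)`
  have h1 : ∀ t, qd (W ^ (t + 1)) (Gf W (t + 1)) ≤
      (finrank k ((1 ⊔ W) ^ (t + 1) : Submodule k A) - finrank k ((1 ⊔ W) ^ t : Submodule k A)) +
        qd (mp W (t + 1)) (mp W (t + 2)) := by
    intro t
    have hft := hf (t + 1)
    have hft1 := hf1 (t + 1)
    refine (qd_inf_le _ _ _).trans (add_le_add ?_ ?_)
    · refine (qd_mono_left (pow_le_one_sup_pow W (t + 1))).trans ?_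
      have h2 := qd_add_finrank_inf ((1 ⊔ W) ^ (t + 1)) ((1 ⊔ W) ^ t)
      have h3 : (1 ⊔ W) ^ (t + 1) ⊓ (1 ⊔ W) ^ t = (1 ⊔ W) ^ t :=
        inf_eq_right.mpr (one_sup_pow_mono W (Nat.le_succ t))
      rw [h3] at h2
      omega
    · have : FiniteDimensional k ((mp W (t + 1)).map (mp W (t + 2)).mkQ) := by
        have h2 := finite_map_mkQ W (t + 2)
        exact Submodule.finiteDimensional_of_le (Submodule.map_mono (mp_le_Al W (t + 1)))
      exact qd_mono_left (pow_le_mp W (t + 1))
  have h0 : qd (W ^ 0) (Gf W 0) ≤ finrank k ((1 ⊔ W) ^ 0 : Submodule k A) := by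
    have := hf 0
    have := qd_le_finrank (W ^ 0) (Gf W 0)
    rw [pow_zero] at this ⊢
    rw [pow_zero]
    exact this
  have hmono : Monotone fun t : ℕ => finrank k ((1 ⊔ W) ^ t : Submodule k A) := by
    intro a b hab
    have := hf1 b
    exact Submodule.finrank_mono (one_sup_pow_mono W hab)
  rw [Finset.sum_range_succ']
  have h2 : ∑ t ∈ Finset.range T, qd (W ^ (t + 1)) (Gf W (t + 1)) ≤
      ∑ t ∈ Finset.range T, ((finrank k ((1 ⊔ W) ^ (t + 1) : Submodule k A) -
        finrank k ((1 ⊔ W) ^ t : Submodule k A)) + qd (mp W (t + 1)) (mp W (t + 2))) :=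
    Finset.sum_le_sum fun t _ => h1 t
  have h2' : ∀ T : ℕ, ∑ t ∈ Finset.range T, (finrank k ((1 ⊔ W) ^ (t + 1) : Submodule k A) -
      finrank k ((1 ⊔ W) ^ t : Submodule k A)) + finrank k ((1 ⊔ W) ^ 0 : Submodule k A) =
        finrank k ((1 ⊔ W) ^ T : Submodule k A) := by
    intro T
    induction T with
    | zero => simp
    | succ T ih =>
      have := hmono (Nat.le_succ T)
      simp only [Nat.succ_eq_add_one] at this
      rw [Finset.sum_range_succ]
      omega
  have h2'' := h2' T
  rw [Finset.sum_add_distrib] at h2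
  have h3 : ∑ t ∈ Finset.range T, qd (mp W (t + 1)) (mp W (t + 2)) ≤ dq W (T + 1) := by
    rw [← sum_qd_mp W (T + 1), Finset.sum_range_succ']
    exact Nat.le_add_right _ _
  have h4 := dq_le W (le_refl (T + 1))
  have h5 := hmono (Nat.zero_le T)
  simp only at h5
  omega

end Alg

section Field

variable {k Ω : Type*} [Field k] [Field Ω] [Algebra k Ω]

theorem finrank_span_mul {a : Ω} (ha : a ≠ 0) (E : Submodule k Ω) :
    finrank k (span k {a} * E : Submodule k Ω) = finrank k E := by
  have h1 : span k {a} * E = E.map (LinearMap.mulLeft k a) := by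
    ext x
    rw [Submodule.mem_span_singleton_mul]
    simp only [Submodule.mem_map, LinearMap.mulLeft_apply]
  rw [h1]
  refine (LinearEquiv.finrank_eq (Submodule.equivMapOfInjective _ ?_ _)).symm
  exact mul_right_injective₀ ha

theorem span_inv_mul_span {a : Ω} (ha : a ≠ 0) : span k {a⁻¹} * span k {a} = 1 := by
  rw [Submodule.span_mul_span, Set.singleton_mul_singleton, inv_mul_cancel₀ ha,
    Submodule.one_eq_span]

theorem span_pow (a : Ω) (t : ℕ) : (span k {a}) ^ t = span k {a ^ t} := by
  rw [Submodule.span_pow, Set.singleton_pow]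

/-- `E = k f + E'`, `W = f⁻¹ E'`: then `k + W = f⁻¹ E`. -/
theorem one_sup_eq {E E' : Submodule k Ω} {f : Ω} (hf : f ≠ 0) (h : E = span k {f} ⊔ E') :
    1 ⊔ span k {f⁻¹} * E' = span k {f⁻¹} * E := by
  rw [h, Submodule.mul_sup, span_inv_mul_span hf]

theorem finrank_span_inv_mul_pow {f : Ω} (hf : f ≠ 0) (E : Submodule k Ω) (t : ℕ) :
    finrank k ((span k {f⁻¹} * E) ^ t : Submodule k Ω) = finrank k (E ^ t : Submodule k Ω) := by
  rw [mul_pow, span_pow]
  exact finrank_span_mul (pow_ne_zero _ (inv_ne_zero hf)) _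

theorem finite_mul_of (a : Ω) (E : Submodule k Ω) [FiniteDimensional k E] :
    FiniteDimensional k (span k {a} * E : Submodule k Ω) :=
  Module.Finite.iff_fg.mpr (Submodule.FG.mul (Submodule.fg_span_singleton _)
    (Module.Finite.iff_fg.mp inferInstance))

/-- **One step of the telescope.** -/
theorem finrank_pow_step {E E' : Submodule k Ω} [FiniteDimensional k E'] {f : Ω} (hf : f ≠ 0)
    (h : E = span k {f} ⊔ E') (t : ℕ) :
    finrank k (E' ^ t : Submodule k Ω) + dq (span k {f⁻¹} * E') t ≤
      finrank k (E ^ t : Submodule k Ω) := by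
  have := finite_mul_of f⁻¹ E'
  have h1 := finrank_pow_add_dq_le (span k {f⁻¹} * E') t
  rw [one_sup_eq hf h, finrank_span_inv_mul_pow hf, finrank_span_inv_mul_pow hf] at h1
  exact h1

/-- **The telescope.** -/
theorem sum_dq_le (E : ℕ → Submodule k Ω) (f : ℕ → Ω) (I : ℕ)
    (hfin : FiniteDimensional k (E 0)) (hle : ∀ i < I, E (i + 1) ≤ E i)
    (hf : ∀ i < I, f i ≠ 0) (h : ∀ i < I, E i = span k {f i} ⊔ E (i + 1)) (t : ℕ) :
    ∑ i ∈ Finset.range I, dq (span k {(f i)⁻¹} * E (i + 1)) t ≤
      finrank k (E 0 ^ t : Submodule k Ω) := by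
  have hle0 : ∀ i ≤ I, E i ≤ E 0 := by
    intro i
    induction i with
    | zero => intro _; exact le_rfl
    | succ i ih => intro hi; exact (hle i (by omega)).trans (ih (by omega))
  have hfd : ∀ i ≤ I, FiniteDimensional k (E i) := fun i hi =>
    Submodule.finiteDimensional_of_le (hle0 i hi)
  suffices hs : ∀ J ≤ I, finrank k (E J ^ t : Submodule k Ω) +
      ∑ i ∈ Finset.range J, dq (span k {(f i)⁻¹} * E (i + 1)) t ≤
      finrank k (E 0 ^ t : Submodule k Ω) by
    have := hs I le_rfl
    omega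
  intro J
  induction J with
  | zero => intro _; simp
  | succ J ih =>
    intro hJ
    have h1 := ih (by omega)
    have := hfd (J + 1) hJ
    have h2 := finrank_pow_step (hf J (by omega)) (h J (by omega)) t
    rw [Finset.sum_range_succ]
    omega

end Field

end Pool.Agent.ALB
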