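import Mathlib

/-!
# Noether normalisation by linear forms, relative to a decreasing chain (`GNN`)

`A` a commutative algebra over an infinite field `k`, `W` a finite-dimensional subspace,
`G t` subspaces with `W * G t ≤ G (t+1)`, and the dimensions of `W ^ t` modulo `G t` grow slowly
(`∑_{t<T} ≤ C (T+1)^n`).  Then `n` elements `u` of `W` and `s` exist with
`W ^ (s+1) ≤ (span u) * W ^ s ⊔ G (s+1)`, and, for a linear map `d : W → M` whose image spans the
`K`-vector space `M` of dimension at most `n`, the `d (u i)` may be chosen to span `M`.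
-/

namespace Pool.Agent.ALB

open Submodule Module MvPolynomial

section Graded

variable {k A : Type*} [Field k] [CommRing A] [Algebra k A]

theorem mul_le_mul_right_sub {P Q R : Submodule k A} (h : P ≤ Q) : R * P ≤ R * Q :=
  mul_le_mul' le_rfl h

theorem mul_le_mul_left_sub {P Q R : Submodule k A} (h : P ≤ Q) : P * R ≤ Q * R :=
  mul_le_mul' h le_rfl

/-- `J 0 = 0`, `J (t+1) = U * W^t`. -/
def Jd (U W : Submodule k A) : ℕ → Submodule k A
  | 0 => ⊥
  | (t+1) => U * W ^ t

theorem Jd_mul_pow (U W : Submodule k A) (s t : ℕ) : Jd U W s * W ^ t ≤ Jd U W (s + t) := by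
  cases s with
  | zero => simp [Jd]
  | succ s =>
    have : s + 1 + t = (s + t) + 1 := by ring
    rw [this]
    simp only [Jd]
    rw [mul_assoc, ← pow_add]

/-- `x`, `y` in `W^t` and congruent modulo `J t`. -/
def Rd (U W : Submodule k A) (t : ℕ) (x y : A) : Prop :=
  x ∈ W ^ t ∧ y ∈ W ^ t ∧ x - y ∈ Jd U W t

theorem Rd_zero_one (U W : Submodule k A) : Rd U W 0 1 1 := by
  refine ⟨?_, ?_, ?_⟩
  · rw [pow_zero]; exact Submodule.one_le.mp le_rfl
  · rw [pow_zero]; exact Submodule.one_le.mp le_rfl
  · simp

theorem Rd_mul {U W : Submodule k A} {s t : ℕ} {x y x' y' : A}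
    (h : Rd U W s x y) (h' : Rd U W t x' y') : Rd U W (s + t) (x * x') (y * y') := by
  obtain ⟨h1, h2, h3⟩ := h
  obtain ⟨h1', h2', h3'⟩ := h'
  refine ⟨?_, ?_, ?_⟩
  · rw [pow_add]; exact Submodule.mul_mem_mul h1 h1'
  · rw [pow_add]; exact Submodule.mul_mem_mul h2 h2'
  · have e : x * x' - y * y' = (x - y) * x' + (x' - y') * y := by ring
    rw [e]
    refine Submodule.add_mem _ ?_ ?_
    · exact Jd_mul_pow U W s t (Submodule.mul_mem_mul h3 h1')
    · rw [add_comm s t]
      exact Jd_mul_pow U W t s (Submodule.mul_mem_mul h3' h2)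

theorem Rd_pow {U W : Submodule k A} {x y : A} (h : Rd U W 1 x y) (a : ℕ) :
    Rd U W a (x ^ a) (y ^ a) := by
  induction a with
  | zero => simpa using Rd_zero_one U W
  | succ a ih =>
    rw [pow_succ, pow_succ]
    exact Rd_mul ih h

theorem Rd_prod {ι : Type*} {U W : Submodule k A} (x y : ι → A) (h : ∀ i, Rd U W 1 (x i) (y i))
    (α : ι → ℕ) (S : Finset ι) :
    Rd U W (∑ i ∈ S, α i) (∏ i ∈ S, x i ^ α i) (∏ i ∈ S, y i ^ α i) := by
  classical
  induction S using Finset.induction_on with
  | empty => simpa using Rd_zero_one U W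
  | insert a S ha ih =>
    rw [Finset.sum_insert ha, Finset.prod_insert ha, Finset.prod_insert ha]
    exact Rd_mul (Rd_pow (h a) _) ih

theorem aeval_sub_mem_Jd {ι : Type*} [Fintype ι] {U W : Submodule k A} (x y : ι → A)
    (h : ∀ i, Rd U W 1 (x i) (y i)) (Q : MvPolynomial ι k) (t : ℕ) (hQ : Q.IsHomogeneous t) :
    aeval x Q - aeval y Q ∈ Jd U W t := by
  rw [aeval_def, aeval_def, eval₂_eq', eval₂_eq', ← Finset.sum_sub_distrib]
  refine Submodule.sum_mem _ fun α hα => ?_
  rw [← mul_sub, ← Algebra.smul_def]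
  refine Submodule.smul_mem _ _ ?_
  have h1 := Rd_prod x y h α Finset.univ
  have h2 : ∑ i, α i = t := by
    have := hQ (mem_support_iff.mp hα)
    rw [Finsupp.weight_apply, Finsupp.sum_fintype] at this
    · simpa using this
    · simp
  rw [h2] at h1
  exact h1.2.2

theorem aeval_smul_const {ι : Type*} [Fintype ι] (b : ι → k) (w : A)
    (Q : MvPolynomial ι k) (t : ℕ) (hQ : Q.IsHomogeneous t) :
    aeval (fun i => b i • w) Q = (eval b Q) • w ^ t := by
  rw [aeval_def, eval₂_eq', eval_eq', Finset.sum_smul]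
  refine Finset.sum_congr rfl fun α hα => ?_
  have h2 : ∑ i, α i = t := by
    have := hQ (mem_support_iff.mp hα)
    rw [Finsupp.weight_apply, Finsupp.sum_fintype] at this
    · simpa using this
    · simp
  have h3 : ∏ i, (b i • w) ^ α i = (∏ i, b i ^ α i) • w ^ t := by
    simp only [smul_pow]
    rw [Finset.prod_smul, Finset.prod_pow_eq_pow_sum, h2]
  rw [h3, ← Algebra.smul_def, smul_smul]

end Graded

section Count

variable {k A : Type*} [Field k] [CommRing A] [Algebra k A]

/-- If `r + 1 > n` elements of `W` are given, some nonzero homogeneous form of positive degree in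
them lies in `G t`. -/
theorem exists_form (W : Submodule k A) [FiniteDimensional k W] (G : ℕ → Submodule k A)
    (hG : ∀ t, W * G t ≤ G (t + 1)) (n C r : ℕ)
    (hC : ∀ T, ∑ t ∈ Finset.range T, finrank k ((W ^ t).map (G t).mkQ) ≤ C * (T + 1) ^ n)
    (hr : n ≤ r) (u : Fin (r + 1) → A) (hu : ∀ i, u i ∈ W) :
    ∃ (t : ℕ) (Q : MvPolynomial (Fin (r + 1)) k), Q ≠ 0 ∧ Q.IsHomogeneous (t + 1) ∧
      aeval u Q ∈ G (t + 1) := by
  classical
  suffices h : ∃ (t : ℕ) (Q : MvPolynomial (Fin (r + 1)) k), Q ≠ 0 ∧ Q.IsHomogeneous t ∧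
      aeval u Q ∈ G t by
    obtain ⟨t, Q, h1, h2, h3⟩ := h
    refine ⟨t, X 0 * Q, mul_ne_zero (X_ne_zero 0) h1, ?_, ?_⟩
    · have := (isHomogeneous_X k (0 : Fin (r + 1))).mul h2
      rwa [add_comm 1 t] at this
    · rw [map_mul, aeval_X]
      exact hG t (Submodule.mul_mem_mul (hu 0) h3)
  by_contra hcon
  push Not at hcon
  -- the monomials of degree `t`
  set m : ℕ := C * (r + 2) ^ r + 1 with hm
  set T : ℕ := (r + 1) * m with hT
  have key : ∀ t, Fintype.card {α : Fin (r + 1) → Fin m // ∑ i, (α i : ℕ) = t} ≤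
      finrank k ((W ^ t).map (G t).mkQ) := by
    intro t
    have : FiniteDimensional k ((W ^ t).map (G t).mkQ) := by
      have : (W ^ t).FG := Submodule.FG.pow (Module.Finite.iff_fg.mp inferInstance) t
      exact Module.Finite.iff_fg.mpr (this.map _)
    have hmem : ∀ α : {α : Fin (r + 1) → Fin m // ∑ i, (α i : ℕ) = t},
        ∏ i, u i ^ (α.1 i : ℕ) ∈ W ^ t := by
      intro α
      have h1 : ∀ i, Rd (⊥ : Submodule k A) W 1 (u i) (u i) := fun i =>
        ⟨by simpa using hu i, by simpa using hu i, by simp⟩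
      have h2 := Rd_prod u u h1 (fun i => (α.1 i : ℕ)) Finset.univ
      rw [α.2] at h2
      exact h2.1
    let f : {α : Fin (r + 1) → Fin m // ∑ i, (α i : ℕ) = t} → ((W ^ t).map (G t).mkQ) :=
      fun α => ⟨(G t).mkQ (∏ i, u i ^ (α.1 i : ℕ)), Submodule.mem_map_of_mem (hmem α)⟩
    have hli : LinearIndependent k f := by
      rw [Fintype.linearIndependent_iff]
      intro c hc
      by_contra hne
      push Not at hne
      obtain ⟨α₀, hα₀⟩ := hne
      let e : {α : Fin (r + 1) → Fin m // ∑ i, (α i : ℕ) = t} → (Fin (r + 1) →₀ ℕ) :=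
        fun α => Finsupp.equivFunOnFinite.symm (fun i => (α.1 i : ℕ))
      have he : Function.Injective e := by
        intro α β hab
        apply Subtype.ext
        funext i
        apply Fin.ext
        have := congrArg (fun g : (Fin (r + 1) →₀ ℕ) => g i) hab
        simpa [e] using this
      let Q : MvPolynomial (Fin (r + 1)) k := ∑ α, monomial (e α) (c α)
      refine hcon t Q ?_ ?_ ?_
      · intro hQ
        have h1 : coeff (e α₀) Q = c α₀ := by
          simp only [Q, coeff_sum, coeff_monomial]
          rw [Finset.sum_eq_single α₀]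
          · simp
          · intro β _ hβ
            rw [if_neg]
            exact fun h => hβ (he h)
          · simp
        rw [hQ] at h1
        exact hα₀ (by simpa using h1.symm)
      · refine IsHomogeneous.sum _ _ _ fun α _ => ?_
        refine isHomogeneous_monomial _ ?_
        rw [Finsupp.degree_eq_sum]
        simpa [e] using α.2
      · have h1 : aeval u Q = ∑ α, c α • ∏ i, u i ^ (α.1 i : ℕ) := by
          simp only [Q, map_sum, aeval_monomial]
          refine Finset.sum_congr rfl fun α _ => ?_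
          rw [Algebra.smul_def, Finsupp.prod_fintype]
          · simp [e]
          · simp
        rw [h1, ← Submodule.Quotient.mk_eq_zero, ← Submodule.mkQ_apply, map_sum]
        have h2 := congrArg Subtype.val hc
        simpa [f] using h2
    exact hli.fintype_card_le_finrank
  have h1 : ∑ t ∈ Finset.range T, Fintype.card {α : Fin (r + 1) → Fin m // ∑ i, (α i : ℕ) = t} =
      m ^ (r + 1) := by
    have h2 : (Finset.univ : Finset (Fin (r + 1) → Fin m)).card =
        ∑ t ∈ Finset.range T,
          ((Finset.univ : Finset (Fin (r + 1) → Fin m)).filter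
            (fun α => ∑ i, (α i : ℕ) = t)).card := by
      refine Finset.card_eq_sum_card_fiberwise fun α _ => ?_
      simp only [Finset.coe_range, Set.mem_Iio]
      calc ∑ i, (α i : ℕ) < ∑ _i : Fin (r + 1), m :=
            Finset.sum_lt_sum_of_nonempty ⟨0, Finset.mem_univ _⟩ fun i _ => (α i).2
        _ = T := by simp [hT]
    rw [Finset.card_univ, Fintype.card_fun, Fintype.card_fin, Fintype.card_fin] at h2
    rw [h2]
    refine Finset.sum_congr rfl fun t _ => ?_
    rw [Fintype.card_subtype]
  have h3 : m ^ (r + 1) ≤ C * (T + 1) ^ n := by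
    rw [← h1]
    exact (Finset.sum_le_sum fun t _ => key t).trans (hC T)
  have hm1 : 1 ≤ m := by omega
  have h4 : T + 1 ≤ (r + 2) * m := by
    rw [hT]; nlinarith
  have h5 : C * (T + 1) ^ n ≤ C * (((r + 2) * m) ^ r) := by
    refine Nat.mul_le_mul_left _ ?_
    calc (T + 1) ^ n ≤ (T + 1) ^ r := Nat.pow_le_pow_right (by omega) hr
      _ ≤ ((r + 2) * m) ^ r := Nat.pow_le_pow_left h4 _
  have h6 : C * (((r + 2) * m) ^ r) = (C * (r + 2) ^ r) * m ^ r := by
    rw [mul_pow]; ring
  have h7 : (C * (r + 2) ^ r) * m ^ r < m ^ (r + 1) := by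
    rw [pow_succ, mul_comm (m ^ r)]
    refine Nat.mul_lt_mul_of_pos_right (by omega) (by positivity)
  omega

end Count

section Main

variable {k A K M : Type*} [Field k] [CommRing A] [Algebra k A] [Field K] [Algebra k K]
  [AddCommGroup M] [Module K M] [Module k M] [IsScalarTower k K M]

/-- `u^t`-step of the elimination. -/
theorem pow_step (W U' : Submodule k A) (G : ℕ → Submodule k A) (w : A)
    (hG : ∀ t, W * G t ≤ G (t + 1)) (hw : w ∈ W) (s : ℕ)
    (h : W ^ (s + 1) ≤ (U' ⊔ span k {w}) * W ^ s ⊔ G (s + 1)) (t : ℕ) :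
    W ^ (s + t + 1) ≤ U' * W ^ (s + t) ⊔ span k {w ^ (t + 1)} * W ^ s ⊔ G (s + t + 1) := by
  have hGp : ∀ a b, W ^ b * G a ≤ G (a + b) := by
    intro a b
    induction b with
    | zero => simp
    | succ b ih =>
      rw [pow_succ', mul_assoc]
      exact (mul_le_mul_right_sub ih).trans (hG _)
  induction t with
  | zero =>
    simp only [add_zero, zero_add, pow_one]
    rw [Submodule.sup_mul] at h
    exact h
  | succ t ih =>
    have h1 : W ^ (s + (t + 1) + 1) ≤ U' * W ^ (s + (t + 1)) ⊔ span k {w} * W ^ (s + t + 1) ⊔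
        G (s + (t + 1) + 1) := by
      have e1 : W ^ (s + (t + 1) + 1) = W ^ (s + 1) * W ^ (t + 1) := by
        rw [← pow_add]; congr 1; ring
      rw [e1]
      refine (mul_le_mul_left_sub h).trans ?_
      rw [Submodule.sup_mul, Submodule.sup_mul, Submodule.sup_mul, mul_assoc, mul_assoc,
        ← pow_add]
      refine sup_le_sup le_rfl ?_
      rw [mul_comm]
      refine (hGp _ _).trans (le_of_eq ?_)
      congr 1; ring
    refine h1.trans ?_
    refine sup_le (sup_le (le_sup_of_le_left le_sup_left) ?_) le_sup_right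
    refine (mul_le_mul_right_sub ih).trans ?_
    rw [Submodule.mul_sup, Submodule.mul_sup]
    have hws : span k {w} ≤ W := by
      rw [span_le]; simpa using hw
    refine sup_le (sup_le ?_ ?_) ?_
    · refine le_sup_of_le_left (le_sup_of_le_left ?_)
      calc span k {w} * (U' * W ^ (s + t)) = U' * (span k {w} * W ^ (s + t)) := by
            rw [mul_left_comm]
        _ ≤ U' * (W * W ^ (s + t)) := mul_le_mul_right_sub (mul_le_mul_left_sub hws)
        _ = U' * W ^ (s + (t + 1)) := by rw [← pow_succ']; rfl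
    · refine le_sup_of_le_left (le_sup_of_le_right ?_)
      rw [← mul_assoc, Submodule.span_mul_span, Set.singleton_mul_singleton, ← pow_succ']
    · refine le_sup_of_le_right ?_
      exact (mul_le_mul_left_sub hws).trans (hG _)

theorem gnn_step [Infinite k] (W : Submodule k A) [FiniteDimensional k W]
    (G : ℕ → Submodule k A) (hG : ∀ t, W * G t ≤ G (t + 1)) (n C r : ℕ)
    (hC : ∀ T, ∑ t ∈ Finset.range T, finrank k ((W ^ t).map (G t).mkQ) ≤ C * (T + 1) ^ n)
    [FiniteDimensional K M] (hM : finrank K M ≤ n) (d : W →ₗ[k] M) (hr : n ≤ r)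
    (u : Fin (r + 1) → W) (s : ℕ)
    (h1 : W ^ (s + 1) ≤ span k (Set.range fun i => (u i : A)) * W ^ s ⊔ G (s + 1))
    (h2 : span K (Set.range fun i => d (u i)) = ⊤) :
    ∃ (u' : Fin r → W) (s' : ℕ),
      W ^ (s' + 1) ≤ span k (Set.range fun i => (u' i : A)) * W ^ s' ⊔ G (s' + 1) ∧
      span K (Set.range fun i => d (u' i)) = ⊤ := by
  classical
  obtain ⟨t, Q, hQ0, hQh, hQG⟩ := exists_form W G hG n C r hC hr (fun i => (u i : A))
    (fun i => (u i).2)
  -- a linear dependence of the `d (u i)`
  obtain ⟨l, hl, i₀, hi₀⟩ : ∃ l : Fin (r + 1) → K, ∑ i, l i • d (u i) = 0 ∧ ∃ i, l i ≠ 0 := by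
    have : ¬ LinearIndependent K (fun i => d (u i)) := by
      intro hli
      have := hli.fintype_card_le_finrank
      simp at this
      omega
    rw [Fintype.not_linearIndependent_iff] at this
    exact this
  -- a good point
  obtain ⟨c, hc1, hc2, hc3⟩ : ∃ c : Fin (r + 1) → k, eval c Q ≠ 0 ∧ c (Fin.last r) ≠ 0 ∧
      ∑ i, l i * algebraMap k K (c i) ≠ 0 := by
    by_contra hcon
    push Not at hcon
    have hinf : ∀ i : Fin (r + 1), (Set.range (algebraMap k K)).Infinite := fun i =>
      Set.infinite_range_of_injective (algebraMap k K).injective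
    let L : MvPolynomial (Fin (r + 1)) K := ∑ i, MvPolynomial.C (l i) * X i
    have hL : L ≠ 0 := by
      intro h0
      have h1 : coeff (Finsupp.single i₀ 1) L = l i₀ := by
        simp only [L, coeff_sum, coeff_C_mul, coeff_X]
        rw [Finset.sum_eq_single i₀]
        · simp
        · intro j _ hj
          rw [if_neg, mul_zero]
          intro h
          exact hj ((Finsupp.single_left_injective one_ne_zero) h)
        · simp
      rw [h0] at h1
      exact hi₀ (by simpa using h1.symm)
    let P : MvPolynomial (Fin (r + 1)) K := map (algebraMap k K) Q * X (Fin.last r) * L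
    have hP : P = 0 := by
      refine MvPolynomial.funext_set (fun _ => Set.range (algebraMap k K)) hinf ?_
      intro x hx
      have hx' : ∀ i, ∃ y, algebraMap k K y = x i := fun i => hx i (Set.mem_univ i)
      choose y hy using hx'
      have hxy : x = fun i => algebraMap k K (y i) := funext fun i => (hy i).symm
      have e1 : eval x (map (algebraMap k K) Q) = algebraMap k K (eval y Q) := by
        rw [hxy, eval_map, ← aeval_def]
        have := aeval_algebraMap_apply K y Q
        rw [aeval_eq_eval] at this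
        exact this
      have e2 : eval x L = ∑ i, l i * algebraMap k K (y i) := by
        simp [L, hxy]
      simp only [P, map_mul, e1, e2, eval_X, map_zero]
      by_cases ha : eval y Q = 0
      · simp [ha]
      by_cases hb : y (Fin.last r) = 0
      · rw [hxy]; simp [hb]
      · rw [hcon y ha hb, mul_zero]
    refine (mul_ne_zero (mul_ne_zero ?_ (X_ne_zero _)) hL) hP
    intro h
    exact hQ0 ((map_injective (algebraMap k K) (algebraMap k K).injective) (by rw [h, map_zero]))
  set cr := c (Fin.last r) with hcr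
  set w : W := u (Fin.last r) with hwdef
  let u' : Fin r → W := fun j => u j.castSucc - (c j.castSucc / cr) • w
  let U' : Submodule k A := span k (Set.range fun i => (u' i : A))
  have hsub : ∀ i : Fin (r + 1), (u i : A) - (c i / cr) • (w : A) ∈ U' := by
    intro i
    refine Fin.lastCases ?_ (fun j => ?_) i
    · rw [← hcr, div_self hc2, one_smul]
      simp [hwdef]
    · refine subset_span ⟨j, ?_⟩
      simp [u']
  have hRd : ∀ i, Rd U' W 1 (u i : A) ((c i / cr) • (w : A)) := by
    intro i
    refine ⟨by simp, by simpa using W.smul_mem _ w.2, ?_⟩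
    simpa [Jd] using hsub i
  -- (i)
  have hi : (w : A) ^ (t + 1) ∈ U' * W ^ t ⊔ G (t + 1) := by
    have h3 := aeval_sub_mem_Jd (fun i => (u i : A)) (fun i => (c i / cr) • (w : A)) hRd Q (t + 1)
      hQh
    rw [aeval_smul_const _ _ _ _ hQh] at h3
    have h4 : eval (fun i => c i / cr) Q = (cr⁻¹) ^ (t + 1) * eval c Q := by
      have := aeval_smul_const (A := k) (fun i => c i) (cr⁻¹) Q (t + 1) hQh
      simp only [smul_eq_mul, aeval_eq_eval, div_eq_mul_inv, mul_comm] at this ⊢
      rw [this]
    have h5 : eval (fun i => c i / cr) Q ≠ 0 := by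
      rw [h4]
      exact mul_ne_zero (pow_ne_zero _ (inv_ne_zero hc2)) hc1
    have h6 : eval (fun i => c i / cr) Q • (w : A) ^ (t + 1) ∈ U' * W ^ t ⊔ G (t + 1) := by
      have h7 : eval (fun i => c i / cr) Q • (w : A) ^ (t + 1) =
          -(aeval (fun i => (u i : A)) Q - eval (fun i => c i / cr) Q • (w : A) ^ (t + 1)) +
            aeval (fun i => (u i : A)) Q := by ring
      rw [h7]
      exact Submodule.add_mem_sup (Submodule.neg_mem _ h3) hQG
    have h8 := Submodule.smul_mem _ (eval (fun i => c i / cr) Q)⁻¹ h6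
    rwa [smul_smul, inv_mul_cancel₀ h5, one_smul] at h8
  refine ⟨u', s + t, ?_, ?_⟩
  · have h3 : span k (Set.range fun i => (u i : A)) ≤ U' ⊔ span k {(w : A)} := by
      rw [span_le]
      rintro _ ⟨i, rfl⟩
      have : (u i : A) = ((u i : A) - (c i / cr) • (w : A)) + (c i / cr) • (w : A) := by ring
      change (u i : A) ∈ _
      rw [this]
      exact Submodule.add_mem_sup (hsub i)
        (Submodule.smul_mem _ _ (subset_span (Set.mem_singleton _)))
    have h4 : W ^ (s + 1) ≤ (U' ⊔ span k {(w : A)}) * W ^ s ⊔ G (s + 1) :=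
      h1.trans (sup_le_sup (mul_le_mul_left_sub h3) le_rfl)
    have h5 := pow_step W U' G (w : A) hG w.2 s h4 t
    refine h5.trans ?_
    refine sup_le (sup_le le_sup_left ?_) le_sup_right
    have h6 : span k {(w : A) ^ (t + 1)} ≤ U' * W ^ t ⊔ G (t + 1) := by
      rw [span_le]; simpa using hi
    refine (mul_le_mul_left_sub h6).trans ?_
    rw [Submodule.sup_mul, mul_assoc, ← pow_add, add_comm t s]
    refine sup_le_sup le_rfl ?_
    have hGp : ∀ a b, W ^ b * G a ≤ G (a + b) := by
      intro a b
      induction b with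
      | zero => simp
      | succ b ih =>
        rw [pow_succ', mul_assoc]
        exact (mul_le_mul_right_sub ih).trans (hG _)
    rw [mul_comm]
    refine (hGp _ _).trans (le_of_eq ?_)
    congr 1; ring
  · -- the span condition
    have hdu' : ∀ j : Fin r, d (u' j) = d (u j.castSucc) -
        (algebraMap k K (c j.castSucc / cr)) • d w := by
      intro j
      simp only [u', map_sub, map_smul]
      rw [algebraMap_smul]
    set S : Submodule K M := span K (Set.range fun i => d (u' i)) with hS
    have hdu'S : ∀ j, d (u' j) ∈ S := fun j => subset_span ⟨j, rfl⟩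
    have hsum : ∑ j : Fin r, l j.castSucc • d (u' j) =
        -((∑ i, l i * algebraMap k K (c i)) / algebraMap k K cr) • d w := by
      have e1 : ∑ i, l i • d (u i) = ∑ j : Fin r, l j.castSucc • d (u j.castSucc) +
          l (Fin.last r) • d w := by
        rw [Fin.sum_univ_castSucc]
      have e2 : ∑ i, l i * algebraMap k K (c i) = ∑ j : Fin r, l j.castSucc *
          algebraMap k K (c j.castSucc) + l (Fin.last r) * algebraMap k K cr := by
        rw [Fin.sum_univ_castSucc]
      have hcrK : algebraMap k K cr ≠ 0 := by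
        simpa using hc2
      have e3 : ∑ j : Fin r, l j.castSucc • d (u' j) =
          ∑ j : Fin r, l j.castSucc • d (u j.castSucc) -
            (∑ j : Fin r, l j.castSucc * algebraMap k K (c j.castSucc / cr)) • d w := by
        rw [Finset.sum_smul, ← Finset.sum_sub_distrib]
        refine Finset.sum_congr rfl fun j _ => ?_
        rw [hdu', smul_sub, smul_smul]
      have e4 : ∑ j : Fin r, l j.castSucc • d (u j.castSucc) = -(l (Fin.last r) • d w) := by
        rw [← sub_eq_zero, sub_neg_eq_add, ← e1, hl]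
      rw [e3, e4, e2, ← neg_smul, ← sub_smul]
      congr 1
      have e5 : ∑ j : Fin r, l j.castSucc * algebraMap k K (c j.castSucc / cr) =
          (∑ j : Fin r, l j.castSucc * algebraMap k K (c j.castSucc)) / algebraMap k K cr := by
        rw [Finset.sum_div]
        refine Finset.sum_congr rfl fun j _ => ?_
        rw [map_div₀, mul_div_assoc]
      rw [e5]
      field_simp
      ring
    have hdw : d w ∈ S := by
      have e1 : -((∑ i, l i * algebraMap k K (c i)) / algebraMap k K cr) • d w ∈ S := by
        rw [← hsum]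
        exact Submodule.sum_mem _ fun j _ => Submodule.smul_mem _ _ (hdu'S j)
      have e2 : -((∑ i, l i * algebraMap k K (c i)) / algebraMap k K cr) ≠ 0 := by
        refine neg_ne_zero.mpr (div_ne_zero hc3 ?_)
        simpa using hc2
      have e3 := Submodule.smul_mem _ (-((∑ i, l i * algebraMap k K (c i)) /
        algebraMap k K cr))⁻¹ e1
      rwa [smul_smul, inv_mul_cancel₀ e2, one_smul] at e3
    rw [eq_top_iff, ← h2, span_le]
    rintro _ ⟨i, rfl⟩
    change d (u i) ∈ S
    refine Fin.lastCases ?_ (fun j => ?_) i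
    · exact hdw
    · have := hdu' j
      have e : d (u j.castSucc) = d (u' j) + (algebraMap k K (c j.castSucc / cr)) • d w := by
        rw [this]; abel
      rw [e]
      exact S.add_mem (hdu'S j) (S.smul_mem _ hdw)

/-- **GNN.** -/
theorem gnn [Infinite k] (W : Submodule k A) [FiniteDimensional k W]
    (G : ℕ → Submodule k A) (hG : ∀ t, W * G t ≤ G (t + 1)) (n C : ℕ)
    (hC : ∀ T, ∑ t ∈ Finset.range T, finrank k ((W ^ t).map (G t).mkQ) ≤ C * (T + 1) ^ n)
    [FiniteDimensional K M] (hM : finrank K M ≤ n) (d : W →ₗ[k] M)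
    (hd : span K (Set.range d) = ⊤) :
    ∃ (u : Fin n → W) (s : ℕ),
      W ^ (s + 1) ≤ span k (Set.range fun i => (u i : A)) * W ^ s ⊔ G (s + 1) ∧
      span K (Set.range fun i => d (u i)) = ⊤ := by
  classical
  have hdown : ∀ e : ℕ, (∃ (u : Fin (n + e) → W) (s : ℕ),
      W ^ (s + 1) ≤ span k (Set.range fun i => (u i : A)) * W ^ s ⊔ G (s + 1) ∧
      span K (Set.range fun i => d (u i)) = ⊤) →
      ∃ (u : Fin n → W) (s : ℕ),
      W ^ (s + 1) ≤ span k (Set.range fun i => (u i : A)) * W ^ s ⊔ G (s + 1) ∧
      span K (Set.range fun i => d (u i)) = ⊤ := by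
    intro e
    induction e with
    | zero => exact id
    | succ e ih =>
      rintro ⟨u, s, h1, h2⟩
      exact ih (gnn_step W G hG n C (n + e) hC hM d (by omega) u s h1 h2)
  refine hdown (finrank k W) ?_
  let b := Module.finBasis k W
  let u : Fin (n + finrank k W) → W := Fin.append (fun _ => 0) b
  have hu : ∀ i, u (Fin.natAdd n i) = b i := fun i => by simp [u]
  have hspan : span k (Set.range fun i => (u i : A)) = W := by
    refine le_antisymm ?_ ?_
    · rw [span_le]
      rintro _ ⟨i, rfl⟩
      exact (u i).2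
    · intro x hx
      have h1 : (⟨x, hx⟩ : W) ∈ span k (Set.range b) := by
        rw [b.span_eq]; exact mem_top
      have h2 := Submodule.mem_map_of_mem (f := W.subtype) h1
      rw [Submodule.map_span] at h2
      refine Submodule.span_mono ?_ h2
      rintro _ ⟨_, ⟨i, rfl⟩, rfl⟩
      exact ⟨Fin.natAdd n i, by simp only [hu]; rfl⟩
  refine ⟨u, 0, ?_, ?_⟩
  · refine le_sup_of_le_left ?_
    rw [hspan]
    simp
  · rw [eq_top_iff, ← hd, span_le]
    rintro _ ⟨x, rfl⟩
    have h1 : x ∈ span k (Set.range b) := by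
      rw [b.span_eq]; exact mem_top
    have h2 := Submodule.mem_map_of_mem (f := d) h1
    rw [Submodule.map_span] at h2
    have h3 : span k (d '' Set.range b) ≤
        (span K (Set.range fun i => d (u i))).restrictScalars k := by
      rw [span_le]
      rintro _ ⟨_, ⟨i, rfl⟩, rfl⟩
      exact subset_span ⟨Fin.natAdd n i, by simp only [hu]⟩
    exact h3 h2

end Main

end Pool.Agent.ALB
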