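import Mathlib

/-!
# Differentials of a finitely generated extension of a perfect field
-/

set_option autoImplicit false

namespace Pool.Agent.ALB

open Submodule Module KaehlerDifferential

section

variable {k K : Type*} [Field k] [Field K] [Algebra k K]

/-- The elements whose differential lies in a fixed subspace form a field. -/
theorem D_mem_of_mem_adjoin {S : Set K} (P : Submodule K Ω[K⁄k])
    (hS : ∀ x ∈ S, D k K x ∈ P) {z : K} (hz : z ∈ IntermediateField.adjoin k S) :
    D k K z ∈ P := by
  induction hz using IntermediateField.adjoin_induction with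
  | mem x hx => exact hS x hx
  | algebraMap c => rw [Derivation.map_algebraMap]; exact P.zero_mem
  | add x y _ _ hx hy => rw [map_add]; exact P.add_mem hx hy
  | inv x _ hx =>
    rw [Derivation.leibniz_inv]
    exact P.smul_mem _ hx
  | mul x y _ _ hx hy =>
    rw [Derivation.leibniz]
    exact P.add_mem (P.smul_mem _ hy) (P.smul_mem _ hx)

/-- If `K` is separable over `k(S)` then the differentials of `S` span. -/
theorem span_D_of_separable (S : Set K)
    (h : Algebra.IsSeparable (IntermediateField.adjoin k S) K) :
    span K (D k K '' S) = ⊤ := by
  have hunr : Algebra.FormallyUnramified (IntermediateField.adjoin k S) K :=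
    Algebra.FormallyUnramified.of_isSeparable _ _
  have hsub : Subsingleton (Ω[K⁄(IntermediateField.adjoin k S)]) := inferInstance
  rw [eq_top_iff]
  intro x hx0
  clear hx0
  have h1 : x ∈ LinearMap.ker (KaehlerDifferential.map k (IntermediateField.adjoin k S) K K) :=
    Subsingleton.elim _ _
  rw [← KaehlerDifferential.range_mapBaseChange] at h1
  obtain ⟨y, rfl⟩ := h1
  induction y with
  | zero => rw [_root_.map_zero]; exact Submodule.zero_mem _
  | tmul r s =>
    obtain ⟨s, rfl⟩ := linearCombination_surjective _ _ s
    rw [mapBaseChange_tmul]
    refine Submodule.smul_mem _ _ ?_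
    induction s using Finsupp.induction_linear with
    | zero => simp
    | add f g hf hg => rw [_root_.map_add, _root_.map_add]; exact Submodule.add_mem _ hf hg
    | single a b =>
      rw [Finsupp.linearCombination_single, _root_.map_smul, KaehlerDifferential.map_D]
      have h2 : D k K (algebraMap (IntermediateField.adjoin k S) K a) ∈ span K (D k K '' S) :=
        D_mem_of_mem_adjoin (S := S) (span K (D k K '' S))
          (fun x hx => subset_span (Set.mem_image_of_mem _ hx)) a.2
      exact Submodule.smul_mem _ (algebraMap (IntermediateField.adjoin k S) K b) h2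
  | add y z hy hz => rw [_root_.map_add]; exact Submodule.add_mem _ hy hz

theorem finrank_kaehler_le [PerfectField k] [Algebra.EssFiniteType k K] (n : ℕ)
    (hn : Algebra.trdeg k K ≤ n) : finrank K Ω[K⁄k] ≤ n := by
  classical
  obtain ⟨s, hs, hsep⟩ := exists_isTranscendenceBasis_and_isSeparable_of_perfectField k K
  have h1 := span_D_of_separable (S := (s : Set K)) hsep
  have h2 : s.card ≤ n := by
    have h3 := hs.1.cardinalMk_le_trdeg
    have h4 := h3.trans hn
    simpa using h4
  have h3 : (D k K '' (s : Set K)) = ((s.image (D k K) : Finset Ω[K⁄k]) : Set Ω[K⁄k]) := by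
    rw [Finset.coe_image]
  rw [h3] at h1
  have h4 := finrank_span_finset_le_card (R := K) (s.image (D k K))
  rw [Set.finrank, h1, finrank_top] at h4
  exact (h4.trans Finset.card_image_le).trans h2

/-- If the differentials of `S` span then `K` is separable over `k(S)`. -/
theorem separable_of_span_D [Algebra.EssFiniteType k K] (S : Set K)
    (h : span K (D k K '' S) = ⊤) :
    Algebra.IsSeparable (IntermediateField.adjoin k S) K := by
  have hess : Algebra.EssFiniteType (IntermediateField.adjoin k S) K :=
    Algebra.EssFiniteType.of_comp k _ K
  have hunr : Algebra.FormallyUnramified (IntermediateField.adjoin k S) K := by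
    refine ⟨?_⟩
    have hsurj := KaehlerDifferential.map_surjective k (IntermediateField.adjoin k S) K
    have h1 : ∀ x : Ω[K⁄k], KaehlerDifferential.map k (IntermediateField.adjoin k S) K K x = 0 := by
      intro x
      have hx : x ∈ span K (D k K '' S) := by rw [h]; trivial
      induction hx using Submodule.span_induction with
      | mem x hx =>
        obtain ⟨z, hz, rfl⟩ := hx
        rw [KaehlerDifferential.map_D]
        have h2 : algebraMap K K z = algebraMap (IntermediateField.adjoin k S) K
            ⟨z, IntermediateField.subset_adjoin k S hz⟩ := rfl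
        rw [h2, Derivation.map_algebraMap]
      | zero => exact _root_.map_zero _
      | add x y _ _ hx hy => rw [_root_.map_add, hx, hy, add_zero]
      | smul a x _ hx => rw [_root_.map_smul, hx, smul_zero]
    refine ⟨fun x y => ?_⟩
    obtain ⟨x, rfl⟩ := hsurj x
    obtain ⟨y, rfl⟩ := hsurj y
    rw [h1, h1]
  exact Algebra.FormallyUnramified.isSeparable _ _

/-- If `S` generates `K` then the differentials of `S` span. -/
theorem span_D_of_adjoin (S : Set K) (h : IntermediateField.adjoin k S = ⊤) :
    span K (D k K '' S) = ⊤ := by
  rw [eq_top_iff, ← KaehlerDifferential.span_range_derivation k K, span_le]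
  rintro _ ⟨z, rfl⟩
  exact D_mem_of_mem_adjoin (S := S) (span K (D k K '' S))
    (fun x hx => subset_span (Set.mem_image_of_mem _ hx))
    (by rw [h]; trivial : z ∈ IntermediateField.adjoin k S)

end

end Pool.Agent.ALB
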