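import Pool.Agent.Lib.ALB.Adic
import Pool.Agent.Lib.ALB.GNN
import Pool.Agent.Lib.ALB.Kaehler

/-!
# Choice of the coordinates `u` (Step 5)
-/

set_option autoImplicit false

namespace Pool.Agent.ALB

open Submodule Module KaehlerDifferential

section

variable {k Ω : Type*} [Field k] [Field Ω] [Algebra k Ω]

theorem separable_transfer (K : IntermediateField k Ω) {n : ℕ} (u : Fin n → K)
    (h : Algebra.IsSeparable (IntermediateField.adjoin k (Set.range u)) K) :
    ∀ z ∈ K, IsSeparable (IntermediateField.adjoin k (Set.range fun i => (u i : Ω))) z := by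
  intro z hz
  set F' := IntermediateField.adjoin k (Set.range u) with hF'
  set F := IntermediateField.adjoin k (Set.range fun i => (u i : Ω)) with hF
  have hmem : ∀ x : F', ((x : K) : Ω) ∈ F := by
    intro x
    have h1 : F = F'.map K.val := by
      rw [hF', IntermediateField.adjoin_map, hF]
      congr 1
      rw [← Set.range_comp]
      rfl
    rw [h1]
    exact ⟨(x : K), x.2, rfl⟩
  let φ : F' →+* F :=
    { toFun := fun x => ⟨((x : K) : Ω), hmem x⟩
      map_one' := rfl
      map_mul' := fun _ _ => rfl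
      map_zero' := rfl
      map_add' := fun _ _ => rfl }
  have h1 : IsSeparable F' (⟨z, hz⟩ : K) := Algebra.IsSeparable.isSeparable F' (⟨z, hz⟩ : K)
  have h2 : (minpoly F' (⟨z, hz⟩ : K)).Separable := h1
  have h3 : Polynomial.aeval z ((minpoly F' (⟨z, hz⟩ : K)).map φ) = 0 := by
    have h4 := minpoly.aeval F' (⟨z, hz⟩ : K)
    rw [Polynomial.aeval_def] at h4 ⊢
    rw [Polynomial.eval₂_map]
    have h5 : (algebraMap F Ω).comp φ = (algebraMap K Ω).comp (algebraMap F' K) := rfl
    rw [h5]
    have h6 : (algebraMap K Ω) (Polynomial.eval₂ (algebraMap F' K) (⟨z, hz⟩ : K)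
        (minpoly F' (⟨z, hz⟩ : K))) = 0 := by rw [h4, map_zero]
    rw [Polynomial.hom_eval₂] at h6
    exact h6
  exact (h2.map (f := φ)).of_dvd (minpoly.dvd F z h3)

/-- **The choice of `u`** (Steps 4 and 5). -/
theorem exists_u [PerfectField k] [Infinite k] (K : IntermediateField k Ω) (n C : ℕ)
    (hn : Algebra.trdeg k K ≤ n) (W : Submodule k Ω) [FiniteDimensional k W]
    (hW : IntermediateField.adjoin k (W : Set Ω) = K)
    (hC : ∀ T, finrank k ((1 ⊔ W) ^ T : Submodule k Ω) ≤ C * (T + 1) ^ n) :
    ∃ (u : Fin n → Ω) (s : ℕ), (∀ i, u i ∈ W) ∧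
      W ^ (s + 1) ≤ span k (Set.range u) * W ^ s ⊔ (1 ⊔ W) ^ s ∧
      W ^ (s + 1) ≤ span k (Set.range u) * W ^ s ⊔ mp W (s + 2) ∧
      (∀ z ∈ K, IsSeparable (IntermediateField.adjoin k (Set.range u)) z) := by
  classical
  have hWK : ∀ w ∈ W, w ∈ K := fun w hw => by
    rw [← hW]; exact IntermediateField.subset_adjoin _ _ hw
  -- a finite set of generators of `W`
  obtain ⟨F, hF⟩ : ∃ F : Finset Ω, span k (F : Set Ω) = W :=
    (Module.Finite.iff_fg.mp (inferInstance : Module.Finite k W))
  have hFK : IntermediateField.adjoin k (F : Set Ω) = K := by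
    refine le_antisymm ?_ ?_
    · rw [IntermediateField.adjoin_le_iff]
      intro x hx
      exact hWK x (by rw [← hF]; exact subset_span hx)
    · rw [← hW, IntermediateField.adjoin_le_iff]
      intro x hx
      rw [SetLike.mem_coe, ← hF] at hx
      have h1 : span k (F : Set Ω) ≤
          Subalgebra.toSubmodule (IntermediateField.adjoin k (F : Set Ω)).toSubalgebra := by
        rw [span_le]
        exact fun y hy => IntermediateField.subset_adjoin _ _ hy
      exact h1 hx
  have hess : Algebra.EssFiniteType k K := by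
    rw [IntermediateField.essFiniteType_iff]
    exact ⟨F, hFK⟩
  -- the derivation on `W`
  let d : W →ₗ[k] Ω[K⁄k] :=
    { toFun := fun w => D k K ⟨w, hWK w w.2⟩
      map_add' := by
        intro a b
        rw [← map_add]
        rfl
      map_smul' := by
        intro c a
        rw [RingHom.id_apply, ← Derivation.map_smul]
        rfl }
  have hd : span K (Set.range d) = ⊤ := by
    have h1 : Set.range d = D k K '' {x : K | (x : Ω) ∈ W} := by
      ext y
      constructor
      · rintro ⟨w, rfl⟩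
        exact ⟨⟨w, hWK w w.2⟩, w.2, rfl⟩
      · rintro ⟨x, hx, rfl⟩
        exact ⟨⟨x, hx⟩, rfl⟩
    rw [h1]
    refine span_D_of_adjoin _ ?_
    apply IntermediateField.map_injective K.val
    rw [IntermediateField.adjoin_map]
    have h2 : K.val '' {x : K | (x : Ω) ∈ W} = (W : Set Ω) := by
      ext y
      constructor
      · rintro ⟨x, hx, rfl⟩
        exact hx
      · intro hy
        exact ⟨⟨y, hWK y hy⟩, hy, rfl⟩
    rw [h2, hW]
    rw [← AlgHom.fieldRange_eq_map, IntermediateField.fieldRange_val]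
  have hMfin : FiniteDimensional K Ω[K⁄k] := inferInstance
  have hsum : ∀ T, ∑ t ∈ Finset.range T, finrank k ((W ^ t).map (Gf W t).mkQ) ≤
      (2 * C) * (T + 1) ^ n := by
    intro T
    cases T with
    | zero => simp
    | succ T =>
      have h1 := sum_qd_Gf_le W T
      have h2 := hC T
      have h3 : (T + 1) ^ n ≤ (T + 1 + 1) ^ n := Nat.pow_le_pow_left (by omega) n
      calc ∑ t ∈ Finset.range (T + 1), finrank k ((W ^ t).map (Gf W t).mkQ)
          ≤ 2 * finrank k ((1 ⊔ W) ^ T : Submodule k Ω) := h1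
        _ ≤ 2 * (C * (T + 1) ^ n) := Nat.mul_le_mul_left _ h2
        _ = (2 * C) * (T + 1) ^ n := by ring
        _ ≤ (2 * C) * (T + 1 + 1) ^ n := Nat.mul_le_mul_left _ h3
  obtain ⟨u, s, h1, h2⟩ := gnn (K := K) W (Gf W) (mul_Gf W) n (2 * C) hsum
    (finrank_kaehler_le n hn) d hd
  refine ⟨fun i => u i, s, fun i => (u i).2, ?_, ?_, ?_⟩
  · exact h1.trans (sup_le_sup le_rfl inf_le_left)
  · exact h1.trans (sup_le_sup le_rfl inf_le_right)
  · have h3 := separable_of_span_D (k := k) (Set.range fun i => (⟨u i, hWK _ (u i).2⟩ : K)) (by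
      rw [← h2, ← Set.range_comp]
      rfl)
    exact separable_transfer K (fun i => (⟨u i, hWK _ (u i).2⟩ : K)) h3

end

end Pool.Agent.ALB
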