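import Pool.Agent.Lib.ALB.Adic

/-!
# Growth of the powers of a finite-dimensional subspace
-/

set_option autoImplicit false

namespace Pool.Agent.ALB

open Submodule Module

section Poly

variable {k : Type*} [Field k]

theorem restrict_le_span (n d : ℕ) :
    MvPolynomial.restrictTotalDegree (Fin n) k d ≤
      span k (Set.range fun α : Fin n → Fin (d + 1) =>
        MvPolynomial.monomial (Finsupp.equivFunOnFinite.symm fun i => (α i : ℕ)) (1 : k)) := by
  intro p hp
  rw [MvPolynomial.mem_restrictTotalDegree] at hp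
  rw [MvPolynomial.as_sum p]
  refine Submodule.sum_mem _ fun α hα => ?_
  have h1 : MvPolynomial.monomial α (MvPolynomial.coeff α p) =
      MvPolynomial.coeff α p • MvPolynomial.monomial α (1 : k) := by
    rw [MvPolynomial.smul_monomial, smul_eq_mul, mul_one]
  rw [h1]
  refine Submodule.smul_mem _ _ (subset_span ?_)
  have h2 : ∀ i, α i < d + 1 := by
    intro i
    have h3 : α i ≤ MvPolynomial.degreeOf i p := MvPolynomial.monomial_le_degreeOf i hα
    have h4 := MvPolynomial.degreeOf_le_totalDegree p i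
    omega
  refine ⟨fun i => ⟨α i, h2 i⟩, ?_⟩
  have h3 : (Finsupp.equivFunOnFinite.symm fun i => α i) = α := by
    ext i; rfl
  simp only [h3]

theorem finrank_restrict_le (n d : ℕ) :
    finrank k (MvPolynomial.restrictTotalDegree (Fin n) k d) ≤ (d + 1) ^ n := by
  have hfd : FiniteDimensional k (span k (Set.range fun α : Fin n → Fin (d + 1) =>
        MvPolynomial.monomial (Finsupp.equivFunOnFinite.symm fun i => (α i : ℕ)) (1 : k))) :=
    FiniteDimensional.span_of_finite k (Set.finite_range _)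
  refine (Submodule.finrank_mono (restrict_le_span n d)).trans ?_
  refine (finrank_range_le_card _).trans ?_
  rw [Fintype.card_fun, Fintype.card_fin, Fintype.card_fin]

end Poly

section Growth

variable {k Ω : Type*} [Field k] [Field Ω] [Algebra k Ω]

theorem finrank_mul_le (P Q : Submodule k Ω) [FiniteDimensional k P] [FiniteDimensional k Q] :
    finrank k (P * Q : Submodule k Ω) ≤ finrank k P * finrank k Q := by
  let b := Module.finBasis k P
  let c := Module.finBasis k Q
  have hb : span k (Set.range fun i => (b i : Ω)) = P := by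
    have h1 : (fun i => (b i : Ω)) = P.subtype ∘ b := rfl
    rw [h1, Set.range_comp, ← Submodule.map_span, b.span_eq, Submodule.map_top,
      Submodule.range_subtype]
  have hc : span k (Set.range fun i => (c i : Ω)) = Q := by
    have h1 : (fun i => (c i : Ω)) = Q.subtype ∘ c := rfl
    rw [h1, Set.range_comp, ← Submodule.map_span, c.span_eq, Submodule.map_top,
      Submodule.range_subtype]
  have h : P * Q ≤ span k (Set.range fun ij : Fin (finrank k P) × Fin (finrank k Q) =>
      (b ij.1 : Ω) * (c ij.2 : Ω)) := by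
    conv_lhs => rw [← hb, ← hc]
    rw [Submodule.span_mul_span, Submodule.span_le]
    rintro _ ⟨_, ⟨i, rfl⟩, _, ⟨j, rfl⟩, rfl⟩
    exact subset_span ⟨(i, j), rfl⟩
  have hfd : FiniteDimensional k (span k (Set.range fun ij : Fin (finrank k P) ×
      Fin (finrank k Q) => (b ij.1 : Ω) * (c ij.2 : Ω))) :=
    FiniteDimensional.span_of_finite k (Set.finite_range _)
  refine (Submodule.finrank_mono h).trans ((finrank_range_le_card _).trans ?_)
  rw [Fintype.card_prod, Fintype.card_fin, Fintype.card_fin]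

theorem growth (n : ℕ) (hn : Algebra.trdeg k Ω ≤ n) (X : Submodule k Ω)
    [FiniteDimensional k X] :
    ∃ C : ℕ, ∀ s, finrank k ((1 ⊔ X) ^ s : Submodule k Ω) ≤ C * (s + 1) ^ n := by
  classical
  obtain ⟨F, hF⟩ : ∃ F : Finset Ω, span k (F : Set Ω) = X :=
    (Module.Finite.iff_fg.mp (inferInstance : Module.Finite k X))
  let A₀ : Subalgebra k Ω := Algebra.adjoin k (X : Set Ω)
  have hA₀ : A₀ = Algebra.adjoin k (F : Set Ω) := by
    refine le_antisymm ?_ ?_
    · refine Algebra.adjoin_le ?_
      intro x hx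
      rw [SetLike.mem_coe, ← hF] at hx
      exact Algebra.span_le_adjoin k _ hx
    · refine Algebra.adjoin_mono ?_
      intro x hx
      rw [← hF]
      exact subset_span hx
  have hft : Algebra.FiniteType k A₀ := by
    rw [← Subalgebra.fg_iff_finiteType, hA₀]
    exact Subalgebra.fg_adjoin_finset F
  obtain ⟨m, g, hg, hgf⟩ := exists_finite_inj_algHom_of_fg k A₀
  -- `m ≤ n`
  have hm : m ≤ n := by
    have h1 : AlgebraicIndependent k (fun i : Fin m => (g (MvPolynomial.X i) : Ω)) := by
      have h2 : (MvPolynomial.aeval fun i : Fin m => (g (MvPolynomial.X i) : Ω)) =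
          A₀.val.comp g := by
        apply MvPolynomial.algHom_ext
        intro i
        simp
      rw [AlgebraicIndependent, h2]
      exact Subtype.val_injective.comp hg
    have h2 := h1.lift_cardinalMk_le_trdeg
    have h3 : Cardinal.lift (Algebra.trdeg k Ω) ≤ Cardinal.lift (n : Cardinal) :=
      Cardinal.lift_le.mpr hn
    have h4 := h2.trans h3
    simpa using h4
  -- the degree filtration
  let G : MvPolynomial (Fin m) k →ₐ[k] Ω := A₀.val.comp g
  let V : ℕ → Submodule k Ω := fun d =>
    (MvPolynomial.restrictTotalDegree (Fin m) k d).map G.toLinearMap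
  have hV1 : ∀ d, 1 ≤ V d := by
    intro d
    rw [Submodule.one_le]
    refine ⟨1, ?_, by simp⟩
    rw [SetLike.mem_coe, MvPolynomial.mem_restrictTotalDegree]
    simp
  have hVmul : ∀ d e, V d * V e ≤ V (d + e) := by
    intro d e
    rw [Submodule.mul_le]
    rintro _ ⟨p, hp, rfl⟩ _ ⟨q, hq, rfl⟩
    rw [SetLike.mem_coe, MvPolynomial.mem_restrictTotalDegree] at hp hq
    refine ⟨p * q, ?_, by simp⟩
    rw [SetLike.mem_coe, MvPolynomial.mem_restrictTotalDegree]
    exact (MvPolynomial.totalDegree_mul p q).trans (add_le_add hp hq)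
  have hVmono : Monotone V := by
    intro d e hde
    refine Submodule.map_mono ?_
    intro p hp
    rw [MvPolynomial.mem_restrictTotalDegree] at hp ⊢
    exact hp.trans hde
  have hVfin : ∀ d, FiniteDimensional k (V d) := fun d => inferInstance
  have hVdim : ∀ d, finrank k (V d) ≤ (d + 1) ^ m := fun d =>
    (Submodule.finrank_map_le _ _).trans (finrank_restrict_le m d)
  -- the module generators
  obtain ⟨B₀, hB₀⟩ : ∃ B₀ : Finset A₀, ∀ a : A₀, ∃ c : A₀ → MvPolynomial (Fin m) k,
      a = ∑ b ∈ B₀, g (c b) * b := by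
    let _ : Algebra (MvPolynomial (Fin m) k) A₀ := g.toRingHom.toAlgebra
    have h1 : Module.Finite (MvPolynomial (Fin m) k) A₀ := hgf
    obtain ⟨B₀, hB₀⟩ := h1.fg_top
    refine ⟨B₀, fun a => ?_⟩
    have h2 : a ∈ span (MvPolynomial (Fin m) k) (B₀ : Set A₀) := by
      rw [hB₀]; trivial
    rw [Submodule.mem_span_finset] at h2
    obtain ⟨c, -, hc⟩ := h2
    refine ⟨c, ?_⟩
    rw [← hc]
    rfl
  let B : Submodule k Ω := 1 ⊔ span k ((fun a : A₀ => (a : Ω)) '' (B₀ : Set A₀))
  have hBfin : FiniteDimensional k B := by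
    refine Module.Finite.iff_fg.mpr (Submodule.FG.sup ?_ ?_)
    · rw [Submodule.one_eq_span]
      exact Submodule.fg_span_singleton _
    · exact Submodule.fg_span ((Finset.finite_toSet B₀).image _)
  -- every element of `A₀` lies in some `V d * B`
  have hcover : ∀ a : A₀, ∃ d, (a : Ω) ∈ V d * B := by
    intro a
    obtain ⟨c, hc⟩ := hB₀ a
    refine ⟨B₀.sup fun b => (c b).totalDegree, ?_⟩
    have h1 : (a : Ω) = ∑ b ∈ B₀, G (c b) * (b : Ω) := by
      rw [hc]
      simp [G]
    rw [h1]
    refine Submodule.sum_mem _ fun b hb => Submodule.mul_mem_mul ?_ ?_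
    · refine ⟨c b, ?_, rfl⟩
      rw [SetLike.mem_coe, MvPolynomial.mem_restrictTotalDegree]
      exact Finset.le_sup (f := fun b => (c b).totalDegree) hb
    · exact Submodule.mem_sup_right (subset_span ⟨b, hb, rfl⟩)
  have hBA : B ≤ Subalgebra.toSubmodule A₀ := by
    refine sup_le ?_ ?_
    · rw [Submodule.one_le]; exact A₀.one_mem
    · rw [Submodule.span_le]
      rintro _ ⟨a, -, rfl⟩
      exact a.2
  have hXA : 1 ⊔ X ≤ Subalgebra.toSubmodule A₀ := by
    refine sup_le ?_ ?_
    · rw [Submodule.one_le]; exact A₀.one_mem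
    · exact fun x hx => Algebra.subset_adjoin hx
  have hXB : (1 ⊔ X) * B ≤ Subalgebra.toSubmodule A₀ := by
    rw [Submodule.mul_le]
    intro x hx y hy
    exact A₀.mul_mem (hXA hx) (hBA hy)
  -- the degree bound
  obtain ⟨D, hD⟩ : ∃ D, (1 ⊔ X) * B ≤ V D * B := by
    have hfg : ((1 ⊔ X) * B).FG := by
      refine Submodule.FG.mul ?_ (Module.Finite.iff_fg.mp hBfin)
      exact Module.Finite.iff_fg.mp (finite_one_sup X)
    obtain ⟨S, hS⟩ := hfg
    have h1 : ∀ s ∈ S, ∃ d, s ∈ V d * B := by
      intro s hs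
      have h2 : s ∈ A₀ := hXB (by rw [← hS]; exact subset_span hs)
      exact hcover ⟨s, h2⟩
    choose! d hd using h1
    refine ⟨S.sup d, ?_⟩
    rw [← hS, Submodule.span_le]
    intro s hs
    exact mul_le_mul' (hVmono (Finset.le_sup hs)) le_rfl (hd s hs)
  have hpow : ∀ s, (1 ⊔ X) ^ s * B ≤ V (s * D) * B := by
    intro s
    induction s with
    | zero =>
      rw [pow_zero, one_mul]
      calc B = 1 * B := (one_mul _).symm
        _ ≤ V (0 * D) * B := mul_le_mul' (hV1 _) le_rfl
    | succ s ih =>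
      calc (1 ⊔ X) ^ (s + 1) * B = (1 ⊔ X) ^ s * ((1 ⊔ X) * B) := by rw [pow_succ, mul_assoc]
        _ ≤ (1 ⊔ X) ^ s * (V D * B) := mul_le_mul' le_rfl hD
        _ = V D * ((1 ⊔ X) ^ s * B) := by rw [mul_left_comm]
        _ ≤ V D * (V (s * D) * B) := mul_le_mul' le_rfl ih
        _ = (V D * V (s * D)) * B := by rw [mul_assoc]
        _ ≤ V (D + s * D) * B := mul_le_mul' (hVmul _ _) le_rfl
        _ = V ((s + 1) * D) * B := by congr 2; ring
  refine ⟨(D + 1) ^ n * finrank k B, fun s => ?_⟩
  have h1 : (1 ⊔ X) ^ s ≤ V (s * D) * B := by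
    refine le_trans ?_ (hpow s)
    calc (1 ⊔ X) ^ s = (1 ⊔ X) ^ s * 1 := (mul_one _).symm
      _ ≤ (1 ⊔ X) ^ s * B := mul_le_mul' le_rfl le_sup_left
  have hfd : FiniteDimensional k (V (s * D) * B : Submodule k Ω) :=
    Module.Finite.iff_fg.mpr (Submodule.FG.mul (Module.Finite.iff_fg.mp (hVfin _))
      (Module.Finite.iff_fg.mp hBfin))
  calc finrank k ((1 ⊔ X) ^ s : Submodule k Ω) ≤ finrank k (V (s * D) * B : Submodule k Ω) :=
        Submodule.finrank_mono h1
    _ ≤ finrank k (V (s * D)) * finrank k B := finrank_mul_le _ _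
    _ ≤ (s * D + 1) ^ m * finrank k B := Nat.mul_le_mul_right _ (hVdim _)
    _ ≤ ((D + 1) * (s + 1)) ^ n * finrank k B := by
        refine Nat.mul_le_mul_right _ ?_
        calc (s * D + 1) ^ m ≤ ((D + 1) * (s + 1)) ^ m := Nat.pow_le_pow_left (by nlinarith) _
          _ ≤ ((D + 1) * (s + 1)) ^ n := Nat.pow_le_pow_right (by positivity) hm
    _ = (D + 1) ^ n * finrank k B * (s + 1) ^ n := by rw [mul_pow]; ring

end Growth

end Pool.Agent.ALB
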