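import Mathlib

/-!
# The numerical contradiction of Step 7
-/

set_option autoImplicit false

namespace Pool.Agent.ALB

open Filter Topology

theorem pow_le_factorial_mul_choose (n j : ℕ) : (j + 1) ^ n ≤ n.factorial * (j + n).choose n := by
  have h := Nat.pow_succ_le_ascFactorial (j + 1) n
  rw [Nat.ascFactorial_eq_factorial_mul_choose] at h
  exact h

/-- `a` grows at most like `s^n`, but `a(mt) ≥ M a(m-1) binom(t - C_m - 1 + n, n)` with
`M > n!`: impossible. -/
theorem numbers (n C M : ℕ) (a : ℕ → ℕ) (ha : ∀ s, a s ≤ C * (s + 1) ^ n) (ha1 : ∀ s, 1 ≤ a s)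
    (hM : n.factorial < M)
    (h : ∀ m, ∃ c, ∀ t, c < t → a m * (M * (t - c - 1 + n).choose n) ≤ a ((m + 1) * t)) :
    False := by
  choose c hc using h
  have hfac : (0 : ℝ) < n.factorial := by exact_mod_cast Nat.factorial_pos n
  set q : ℝ := (M : ℝ) / n.factorial with hq
  have hq1 : 1 < q := by
    rw [hq, one_lt_div hfac]
    exact_mod_cast hM
  -- `r < 1` with `q r² > 1`
  obtain ⟨r, hr0, hr1, hr⟩ : ∃ r : ℝ, 0 < r ∧ r < 1 ∧ 1 < q * r * r := by
    have h1 : Tendsto (fun r : ℝ => q * r * r) (𝓝[<] 1) (𝓝 (q * 1 * 1)) := by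
      refine Tendsto.mono_left ?_ nhdsWithin_le_nhds
      exact Continuous.tendsto (by fun_prop) 1
    have h2 : ∀ᶠ r in 𝓝[<] (1 : ℝ), 1 < q * r * r :=
      h1.eventually (lt_mem_nhds (by simpa using hq1))
    have h3 : ∀ᶠ r in 𝓝[<] (1 : ℝ), 0 < r ∧ r < 1 := by
      have : Set.Ioo (0 : ℝ) 1 ∈ 𝓝[<] (1 : ℝ) := Ioo_mem_nhdsLT zero_lt_one
      exact this
    obtain ⟨r, hr⟩ := (h2.and h3).exists
    exact ⟨r, hr.2.1, hr.2.2, hr.1⟩
  set lam : ℝ := q * r * r with hlam
  -- `(t - c)/t` tends to one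
  have hlim : ∀ c : ℕ, Tendsto (fun t : ℕ => (((t : ℝ) - c) / t) ^ n) atTop (𝓝 1) := by
    intro c
    have h1 : Tendsto (fun t : ℕ => ((t : ℝ) - c) / t) atTop (𝓝 1) := by
      have h2 : Tendsto (fun t : ℕ => 1 - (c : ℝ) / t) atTop (𝓝 (1 - 0)) :=
        tendsto_const_nhds.sub (tendsto_const_div_atTop_nhds_zero_nat (c : ℝ))
      rw [sub_zero] at h2
      refine h2.congr' ?_
      filter_upwards [eventually_gt_atTop 0] with t ht
      have : (t : ℝ) ≠ 0 := by positivity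
      field_simp
    have h2 := h1.pow n
    rwa [one_pow] at h2
  -- `s_0`
  obtain ⟨s₀, hs₀⟩ : ∃ s₀ : ℕ, ∀ s, s₀ ≤ s → r ≤ (((s : ℝ)) / (s + 1)) ^ n := by
    have h1 := (hlim 1).comp (tendsto_add_atTop_nat 1)
    have h2 : ∀ᶠ s : ℕ in atTop, r < (((s : ℝ)) / (s + 1)) ^ n := by
      have h3 := h1.eventually (lt_mem_nhds hr1)
      refine h3.mono fun s hs => ?_
      simpa using hs
    obtain ⟨s₀, h3⟩ := eventually_atTop.1 h2
    exact ⟨s₀, fun s hs => (h3 s hs).le⟩
  -- the induction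
  let b : ℕ → ℝ := fun s => (a s : ℝ) / (s : ℝ) ^ n
  have key : ∀ s, s₀ ≤ s → 1 ≤ s → ∃ s', s₀ ≤ s' ∧ 1 ≤ s' ∧ lam * b s ≤ b s' := by
    intro s hs hs1
    have h1 : ∀ᶠ t : ℕ in atTop, r < (((t : ℝ) - c s) / t) ^ n :=
      (hlim (c s)).eventually (lt_mem_nhds hr1)
    obtain ⟨t, ⟨ht1, ht2⟩, ht3⟩ := ((h1.and (eventually_gt_atTop (c s))).and
      (eventually_ge_atTop 1)).exists
    refine ⟨(s + 1) * t, ?_, ?_, ?_⟩
    · calc s₀ ≤ s := hs
        _ ≤ (s + 1) * 1 := by omega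
        _ ≤ (s + 1) * t := Nat.mul_le_mul_left _ ht3
    · exact Nat.mul_pos (by omega) ht3
    · have h2 := hc s t ht2
      have h3 := pow_le_factorial_mul_choose n (t - c s - 1)
      have h4 : t - c s - 1 + 1 = t - c s := by omega
      rw [h4] at h3
      have h5 : ((t : ℝ) - c s) ^ n ≤ n.factorial * ((t - c s - 1 + n).choose n : ℕ) := by
        have h6 : ((t - c s : ℕ) : ℝ) = (t : ℝ) - c s := by
          rw [Nat.cast_sub ht2.le]
        rw [← h6]
        exact_mod_cast h3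
      have h6 : (a s : ℝ) * (M * ((t - c s - 1 + n).choose n : ℕ)) ≤ a ((s + 1) * t) := by
        exact_mod_cast h2
      have hspos : (0 : ℝ) < s := by exact_mod_cast hs1
      have htpos : (0 : ℝ) < t := by exact_mod_cast ht3
      have has : (0 : ℝ) ≤ a s := by positivity
      have h7 : (a s : ℝ) * (q * ((t : ℝ) - c s) ^ n) ≤ a ((s + 1) * t) := by
        refine le_trans ?_ h6
        refine mul_le_mul_of_nonneg_left ?_ has
        rw [hq, div_mul_eq_mul_div, div_le_iff₀ hfac]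
        calc (M : ℝ) * ((t : ℝ) - c s) ^ n ≤ M * (n.factorial * ((t - c s - 1 + n).choose n : ℕ)) :=
              mul_le_mul_of_nonneg_left h5 (by positivity)
          _ = M * ((t - c s - 1 + n).choose n : ℕ) * n.factorial := by ring
      have h8 := hs₀ s hs
      have h9 : b ((s + 1) * t) = (a ((s + 1) * t) : ℝ) / (((s : ℝ) + 1) ^ n * (t : ℝ) ^ n) := by
        simp only [b]
        push_cast
        rw [mul_pow]
      rw [h9, le_div_iff₀ (by positivity)]
      refine le_trans ?_ h7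
      have h10 : r * ((s : ℝ) + 1) ^ n ≤ (s : ℝ) ^ n := by
        rw [div_pow, le_div_iff₀ (by positivity)] at h8
        exact h8
      have h11 : r * (t : ℝ) ^ n ≤ ((t : ℝ) - c s) ^ n := by
        rw [div_pow, lt_div_iff₀ (by positivity)] at ht1
        exact ht1.le
      have h12 : lam * b s * (((s : ℝ) + 1) ^ n * (t : ℝ) ^ n) =
          (q * (a s) / (s : ℝ) ^ n) * ((r * ((s : ℝ) + 1) ^ n) * (r * (t : ℝ) ^ n)) := by
        simp only [hlam, b]; ring
      rw [h12]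
      have h13 : (a s : ℝ) * (q * ((t : ℝ) - c s) ^ n) =
          (q * (a s) / (s : ℝ) ^ n) * ((s : ℝ) ^ n * ((t : ℝ) - c s) ^ n) := by
        field_simp
      rw [h13]
      have h14 : 0 ≤ q * (a s) / (s : ℝ) ^ n := by positivity
      refine mul_le_mul_of_nonneg_left ?_ h14
      exact mul_le_mul h10 h11 (by positivity) (by positivity)
  have hpow : ∀ K : ℕ, ∃ s, s₀ ≤ s ∧ 1 ≤ s ∧ lam ^ K * b (s₀ + 1) ≤ b s := by
    intro K
    induction K with
    | zero => exact ⟨s₀ + 1, by omega, by omega, by simp⟩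
    | succ K ih =>
      obtain ⟨s, h1, h2, h3⟩ := ih
      obtain ⟨s', h1', h2', h3'⟩ := key s h1 h2
      refine ⟨s', h1', h2', le_trans ?_ h3'⟩
      rw [pow_succ']
      calc lam * lam ^ K * b (s₀ + 1) = lam * (lam ^ K * b (s₀ + 1)) := by ring
        _ ≤ lam * b s := mul_le_mul_of_nonneg_left h3 (by positivity)
  have hb0 : 0 < b (s₀ + 1) := by
    have : (0 : ℝ) < a (s₀ + 1) := by exact_mod_cast ha1 (s₀ + 1)
    simp only [b]
    positivity
  have hbound : ∀ s, 1 ≤ s → b s ≤ C * 2 ^ n := by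
    intro s hs
    have hspos : (0 : ℝ) < s := by exact_mod_cast hs
    simp only [b]
    rw [div_le_iff₀ (by positivity)]
    have h1 : (a s : ℝ) ≤ C * ((s : ℝ) + 1) ^ n := by exact_mod_cast ha s
    refine h1.trans ?_
    rw [mul_assoc, ← mul_pow]
    refine mul_le_mul_of_nonneg_left (pow_le_pow_left₀ (by positivity) ?_ n) (by positivity)
    have : (1 : ℝ) ≤ s := by exact_mod_cast hs
    linarith
  have h1 : Tendsto (fun K : ℕ => lam ^ K * b (s₀ + 1)) atTop atTop :=
    (tendsto_pow_atTop_atTop_of_one_lt hr).atTop_mul_const hb0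
  obtain ⟨K, hK⟩ := (h1.eventually (eventually_gt_atTop ((C : ℝ) * 2 ^ n))).exists
  obtain ⟨s, -, h2, h3⟩ := hpow K
  have h4 := hbound s h2
  linarith

end Pool.Agent.ALB
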