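import Pool.Agent.Lib.ALB.Adic
import Pool.Agent.Lib.JM_H15.Basic

/-!
# The filtration of a finite-dimensional space of functions by the values of a real valuation
-/

set_option autoImplicit false

namespace Pool.Agent.ALB

open Submodule Module
open Pool.Agent.H15JM (RVal)

variable {k Ω : Type*} [Field k] [Field Ω] [Algebra k Ω]

/-- The elements of `E` of value at least `c`. -/
def geS (v : RVal Ω) (ht : ∀ c : k, c ≠ 0 → v (algebraMap k Ω c) = 0) (E : Submodule k Ω)
    (c : ℝ) : Submodule k Ω where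
  carrier := {g | g ∈ E ∧ v.Ge c g}
  zero_mem' := ⟨E.zero_mem, RVal.Ge.zero⟩
  add_mem' := fun ha hb => ⟨E.add_mem ha.1 hb.1, ha.2.add hb.2⟩
  smul_mem' := by
    intro a g hg
    refine ⟨E.smul_mem a hg.1, ?_⟩
    by_cases h : a = 0
    · subst h; rw [zero_smul]; exact RVal.Ge.zero
    · rw [Algebra.smul_def]
      have h1 : v.Ge 0 (algebraMap k Ω a) := fun _ => (ht a h).ge
      have h2 := h1.mul hg.2
      rwa [zero_add] at h2

/-- The elements of `E` of value greater than `c`. -/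
def gtS (v : RVal Ω) (ht : ∀ c : k, c ≠ 0 → v (algebraMap k Ω c) = 0) (E : Submodule k Ω)
    (c : ℝ) : Submodule k Ω where
  carrier := {g | g ∈ E ∧ (g ≠ 0 → c < v g)}
  zero_mem' := ⟨E.zero_mem, fun h => absurd rfl h⟩
  add_mem' := by
    rintro a b ⟨ha, ha'⟩ ⟨hb, hb'⟩
    refine ⟨E.add_mem ha hb, fun h => ?_⟩
    by_cases h1 : a = 0
    · subst h1; rw [zero_add] at h ⊢; exact hb' h
    by_cases h2 : b = 0
    · subst h2; rw [add_zero] at h ⊢; exact ha' h
    exact lt_of_lt_of_le (lt_min (ha' h1) (hb' h2)) (v.map_add h1 h2 h)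
  smul_mem' := by
    intro a g hg
    refine ⟨E.smul_mem a hg.1, fun h => ?_⟩
    have h1 : a ≠ 0 := by rintro rfl; simp at h
    have h2 : g ≠ 0 := by rintro rfl; simp at h
    rw [Algebra.smul_def, v.map_mul (by simpa using h1) h2, ht a h1, zero_add]
    exact hg.2 h2

variable {v : RVal Ω} (ht : ∀ c : k, c ≠ 0 → v (algebraMap k Ω c) = 0)

theorem mem_geS {E : Submodule k Ω} {c : ℝ} {g : Ω} : g ∈ geS v ht E c ↔ g ∈ E ∧ v.Ge c g :=
  Iff.rfl

theorem mem_gtS {E : Submodule k Ω} {c : ℝ} {g : Ω} :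
    g ∈ gtS v ht E c ↔ g ∈ E ∧ (g ≠ 0 → c < v g) := Iff.rfl

include ht

/-- A finite-dimensional space has elements of least value. -/
theorem exists_min {E : Submodule k Ω} [FiniteDimensional k E] (hE : E ≠ ⊥) :
    ∃ f ∈ E, f ≠ 0 ∧ ∀ g ∈ E, v.Ge (v f) g := by
  classical
  have hfin : ∀ c, FiniteDimensional k (geS v ht E c) := fun c =>
    Submodule.finiteDimensional_of_le (fun x hx => hx.1)
  obtain ⟨f₀, hf₀, hf₀0⟩ := Submodule.exists_mem_ne_zero_of_ne_bot hE
  -- choose `f` with the largest `geS v E (v f)`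
  have hP : ∃ m : ℕ, ∃ f ∈ E, f ≠ 0 ∧ finrank k E - finrank k (geS v ht E (v f)) = m :=
    ⟨_, f₀, hf₀, hf₀0, rfl⟩
  obtain ⟨f, hf, hf0, hm⟩ := Nat.find_spec hP
  refine ⟨f, hf, hf0, fun g hg hg0 => ?_⟩
  by_contra hcon
  push Not at hcon
  have h1 : geS v ht E (v f) ≤ geS v ht E (v g) := fun x hx => ⟨hx.1, hx.2.mono hcon.le⟩
  have h2 : geS v ht E (v f) ≠ geS v ht E (v g) := by
    intro h
    have h3 : g ∈ geS v ht E (v f) := by
      rw [h]; exact ⟨hg, fun _ => le_rfl⟩
    exact absurd (h3.2 hg0) (not_le.mpr hcon)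
  have := hfin (v g)
  have h3 : finrank k (geS v ht E (v f)) < finrank k (geS v ht E (v g)) :=
    Submodule.finrank_lt_finrank_of_lt (lt_of_le_of_ne h1 h2)
  have h4 : finrank k (geS v ht E (v g)) ≤ finrank k E :=
    Submodule.finrank_mono (fun x hx => hx.1)
  have h5 := Nat.find_min' hP ⟨g, hg, hg0, rfl⟩
  omega

/-- The first step: `E = k f + E⁺`, `E⁺` has codimension one. -/
theorem exists_step (hres : ∀ g : Ω, g ≠ 0 → v g = 0 → ∃ c : k, c ≠ 0 ∧
      (g - algebraMap k Ω c ≠ 0 → 0 < v (g - algebraMap k Ω c)))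
    {E : Submodule k Ω} [FiniteDimensional k E] (hE : E ≠ ⊥) :
    ∃ f ∈ E, f ≠ 0 ∧ (∀ g ∈ E, v.Ge (v f) g) ∧ E = span k {f} ⊔ gtS v ht E (v f) ∧
      finrank k (gtS v ht E (v f)) + 1 = finrank k E := by
  obtain ⟨f, hf, hf0, hmin⟩ := exists_min ht hE
  have h1 : E = span k {f} ⊔ gtS v ht E (v f) := by
    refine le_antisymm ?_ (sup_le ?_ fun x hx => hx.1)
    · intro g hg
      by_cases hg1 : g ≠ 0 → v f < v g
      · exact Submodule.mem_sup_right ⟨hg, hg1⟩
      · push Not at hg1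
        obtain ⟨hg0, hg1⟩ := hg1
        have h2 : v g = v f := le_antisymm hg1 (hmin g hg hg0)
        have h3 : v (g / f) = 0 := by rw [v.map_div hg0 hf0, h2, sub_self]
        obtain ⟨c, hc, hc'⟩ := hres (g / f) (div_ne_zero hg0 hf0) h3
        have h4 : g = c • f + (g - c • f) := by abel
        rw [h4]
        refine Submodule.add_mem_sup (Submodule.smul_mem _ _ (subset_span rfl)) ?_
        refine ⟨E.sub_mem hg (E.smul_mem _ hf), fun h5 => ?_⟩
        have h6 : g - c • f = (g / f - algebraMap k Ω c) * f := by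
          rw [Algebra.smul_def]; field_simp
        rw [h6] at h5 ⊢
        have h7 := left_ne_zero_of_mul h5
        rw [v.map_mul h7 hf0]
        linarith [hc' h7]
    · rw [span_le]; simpa using hf
  refine ⟨f, hf, hf0, hmin, h1, ?_⟩
  have h2 : span k {f} ⊓ gtS v ht E (v f) = ⊥ := by
    rw [eq_bot_iff]
    rintro x ⟨hx1, hx2⟩
    rw [SetLike.mem_coe, mem_span_singleton] at hx1
    obtain ⟨a, rfl⟩ := hx1
    by_contra h0
    rw [Submodule.mem_bot] at h0
    have ha : a ≠ 0 := by rintro rfl; simp at h0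
    have h3 := hx2.2 h0
    rw [Algebra.smul_def, v.map_mul (by simpa using ha) hf0, ht a ha, zero_add] at h3
    exact lt_irrefl _ h3
  have : FiniteDimensional k (gtS v ht E (v f)) :=
    Submodule.finiteDimensional_of_le (fun x hx => hx.1)
  have h3 := Submodule.finrank_sup_add_finrank_inf_eq (span k {f}) (gtS v ht E (v f))
  rw [h2, finrank_bot, ← h1, finrank_span_singleton hf0] at h3
  omega

omit ht in
/-- The data of the filtration. -/
structure VFil (v : RVal Ω) (E₀ : Submodule k Ω) (I : ℕ) where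
  /-- the spaces -/
  E : ℕ → Submodule k Ω
  /-- elements of least value -/
  f : ℕ → Ω
  zero : E 0 = E₀
  mem : ∀ i < I, f i ∈ E i
  ne : ∀ i < I, f i ≠ 0
  succ_le : ∀ i < I, E (i + 1) ≤ E i
  min : ∀ i < I, ∀ g ∈ E i, v.Ge (v (f i)) g
  eq : ∀ i < I, E i = span k {f i} ⊔ E (i + 1)
  gt : ∀ i < I, ∀ g ∈ E (i + 1), g ≠ 0 → v (f i) < v g
  dim : ∀ i ≤ I, finrank k (E i) + i = finrank k E₀
  /-- `E i` is the set of the elements of `E₀` of value at least `v (f i)`. -/
  ge_mem : ∀ i < I, ∀ g ∈ E₀, v.Ge (v (f i)) g → g ∈ E i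

theorem exists_vfil (hres : ∀ g : Ω, g ≠ 0 → v g = 0 → ∃ c : k, c ≠ 0 ∧
      (g - algebraMap k Ω c ≠ 0 → 0 < v (g - algebraMap k Ω c)))
    (I : ℕ) : ∀ (E₀ : Submodule k Ω) [FiniteDimensional k E₀], I ≤ finrank k E₀ →
      Nonempty (VFil v E₀ I) := by
  induction I with
  | zero =>
    intro E₀ _ _
    refine ⟨⟨fun _ => E₀, fun _ => 0, rfl, ?_, ?_, ?_, ?_, ?_, ?_, ?_, ?_⟩⟩
    · simp
    · simp
    · simp
    · simp
    · simp
    · simp
    · intro i hi
      obtain rfl : i = 0 := by omega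
      simp
    · simp
  | succ I ih =>
    intro E₀ _ hI
    have hE : E₀ ≠ ⊥ := by
      rintro rfl
      rw [finrank_bot] at hI
      omega
    obtain ⟨f, hf, hf0, hmin, heq, hdim⟩ := exists_step ht hres hE
    set E' := gtS v ht E₀ (v f) with hE'
    have : FiniteDimensional k E' := Submodule.finiteDimensional_of_le (fun x hx => hx.1)
    obtain ⟨F⟩ := ih E' (by omega)
    refine ⟨⟨fun i => Nat.casesOn i E₀ F.E, fun i => Nat.casesOn i f F.f, rfl, ?_, ?_, ?_, ?_,
      ?_, ?_, ?_, ?_⟩⟩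
    · intro i hi
      cases i with
      | zero => exact hf
      | succ i => exact F.mem i (by omega)
    · intro i hi
      cases i with
      | zero => exact hf0
      | succ i => exact F.ne i (by omega)
    · intro i hi
      cases i with
      | zero =>
        change F.E 0 ≤ E₀
        rw [F.zero]
        exact fun x hx => hx.1
      | succ i => exact F.succ_le i (by omega)
    · intro i hi
      cases i with
      | zero => exact hmin
      | succ i => exact F.min i (by omega)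
    · intro i hi
      cases i with
      | zero =>
        change E₀ = span k {f} ⊔ F.E 0
        rw [F.zero]
        exact heq
      | succ i => exact F.eq i (by omega)
    · intro i hi
      cases i with
      | zero =>
        change ∀ g ∈ F.E 0, g ≠ 0 → v f < v g
        rw [F.zero]
        exact fun g hg => hg.2
      | succ i => exact F.gt i (by omega)
    · intro i hi
      cases i with
      | zero => rfl
      | succ i =>
        have := F.dim i (by omega)
        change finrank k (F.E i) + (i + 1) = finrank k E₀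
        omega
    · intro i hi
      cases i with
      | zero => exact fun g hg _ => hg
      | succ i =>
        intro g hg hge
        refine F.ge_mem i (by omega) g ?_ hge
        refine ⟨hg, fun hg0 => ?_⟩
        refine lt_of_lt_of_le ?_ (hge hg0)
        -- `F.f i ∈ E'`
        have h1 : ∀ j ≤ i, F.E j ≤ F.E 0 := by
          intro j
          induction j with
          | zero => intro _; exact le_rfl
          | succ j ihj => intro hj; exact (F.succ_le j (by omega)).trans (ihj (by omega))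
        have h2 : F.f i ∈ E' := by
          have := h1 i le_rfl (F.mem i (by omega))
          rwa [F.zero] at this
        exact h2.2 (F.ne i (by omega))

omit ht

theorem VFil.le_zero {E₀ : Submodule k Ω} {I : ℕ} (F : VFil v E₀ I) :
    ∀ i ≤ I, F.E i ≤ E₀ := by
  intro i
  induction i with
  | zero => intro _; rw [F.zero]
  | succ i ih => intro hi; exact (F.succ_le i (by omega)).trans (ih (by omega))

/-- The space `W_i`. -/
noncomputable def VFil.W {E₀ : Submodule k Ω} {I : ℕ} (F : VFil v E₀ I) (i : ℕ) :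
    Submodule k Ω := span k {(F.f i)⁻¹} * F.E (i + 1)

theorem VFil.finite {E₀ : Submodule k Ω} [FiniteDimensional k E₀] {I : ℕ} (F : VFil v E₀ I)
    {i : ℕ} (hi : i ≤ I) : FiniteDimensional k (F.E i) :=
  Submodule.finiteDimensional_of_le (F.le_zero i hi)

theorem VFil.finite_W {E₀ : Submodule k Ω} [FiniteDimensional k E₀] {I : ℕ} (F : VFil v E₀ I)
    {i : ℕ} (hi : i < I) : FiniteDimensional k (F.W i) := by
  have := F.finite (i := i + 1) hi
  exact finite_mul_of _ _

theorem VFil.mem_W {E₀ : Submodule k Ω} {I : ℕ} (F : VFil v E₀ I) {i : ℕ} {w : Ω} :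
    w ∈ F.W i ↔ ∃ g ∈ F.E (i + 1), (F.f i)⁻¹ * g = w :=
  Submodule.mem_span_singleton_mul

/-- `v > 0` on `W_i`. -/
theorem VFil.W_pos {E₀ : Submodule k Ω} {I : ℕ} (F : VFil v E₀ I) {i : ℕ} (hi : i < I)
    {w : Ω} (hw : w ∈ F.W i) (h0 : w ≠ 0) : 0 < v w := by
  obtain ⟨g, hg, rfl⟩ := F.mem_W.1 hw
  have hg0 := right_ne_zero_of_mul h0
  rw [v.map_mul (inv_ne_zero (F.ne i hi)) hg0, v.map_inv (F.ne i hi)]
  linarith [F.gt i hi g hg hg0]

theorem VFil.one_sup_W {E₀ : Submodule k Ω} {I : ℕ} (F : VFil v E₀ I) {i : ℕ} (hi : i < I) :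
    1 ⊔ F.W i = span k {(F.f i)⁻¹} * F.E i :=
  one_sup_eq (F.ne i hi) (F.eq i hi)

/-- `dim (k + W_i)^t ≤ dim E₀^t`. -/
theorem VFil.finrank_le {E₀ : Submodule k Ω} [FiniteDimensional k E₀] {I : ℕ}
    (F : VFil v E₀ I) {i : ℕ} (hi : i < I) (t : ℕ) :
    finrank k ((1 ⊔ F.W i) ^ t : Submodule k Ω) ≤ finrank k (E₀ ^ t : Submodule k Ω) := by
  rw [F.one_sup_W hi, finrank_span_inv_mul_pow (F.ne i hi)]
  have := finite_pow E₀ t
  exact Submodule.finrank_mono (pow_le_pow_left' (F.le_zero i hi.le) t)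

/-- **The telescope (*)**. -/
theorem VFil.sum_dq_le {E₀ : Submodule k Ω} [h : FiniteDimensional k E₀] {I : ℕ}
    (F : VFil v E₀ I) (t : ℕ) :
    ∑ i ∈ Finset.range I, dq (F.W i) t ≤ finrank k (E₀ ^ t : Submodule k Ω) := by
  have := ALB.sum_dq_le F.E F.f I (by rw [F.zero]; exact h) F.succ_le F.ne F.eq t
  rwa [F.zero] at this

/-- `k(W_i)` contains the generators `X` if `E₀ = (k + X)^(m+1)` and `i < dim (k + X)^m`. -/
theorem VFil.mem_adjoin {X : Submodule k Ω} [FiniteDimensional k X] (m : ℕ) {I : ℕ}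
    (F : VFil v ((1 ⊔ X) ^ (m + 1)) I) {i : ℕ} (hi : i < I)
    (him : i < finrank k ((1 ⊔ X) ^ m : Submodule k Ω)) (hX : ∀ x ∈ X, v.Ge 0 x)
    {x : Ω} (hx : x ∈ X) : x ∈ IntermediateField.adjoin k (F.W i : Set Ω) := by
  have hfin := finite_one_sup_pow X
  have := hfin (m + 1)
  have := hfin m
  have := F.finite hi.le
  -- a nonzero element of `E_i ∩ (k + X)^m`
  have h1 : F.E i ⊓ (1 ⊔ X) ^ m ≠ ⊥ := by
    intro h
    have h2 := Submodule.finrank_sup_add_finrank_inf_eq (F.E i) ((1 ⊔ X) ^ m)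
    rw [h, finrank_bot, add_zero] at h2
    have h3 : finrank k (F.E i ⊔ (1 ⊔ X) ^ m : Submodule k Ω) ≤
        finrank k ((1 ⊔ X) ^ (m + 1) : Submodule k Ω) :=
      Submodule.finrank_mono (sup_le (F.le_zero i hi.le) (one_sup_pow_mono X (Nat.le_succ m)))
    have h4 := F.dim i hi.le
    omega
  obtain ⟨g, hg, hg0⟩ := Submodule.exists_mem_ne_zero_of_ne_bot h1
  have hgE : g ∈ F.E i := hg.1
  have hgX : g ∈ (1 ⊔ X) ^ m := hg.2
  -- every element `h` of `E_i` has `f⁻¹ h` in the field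
  have hfield : ∀ h ∈ F.E i, (F.f i)⁻¹ * h ∈ IntermediateField.adjoin k (F.W i : Set Ω) := by
    intro h hh
    have h2 : (F.f i)⁻¹ * h ∈ span k {(F.f i)⁻¹} * F.E i :=
      Submodule.mem_span_singleton_mul.2 ⟨h, hh, rfl⟩
    rw [← F.one_sup_W hi] at h2
    obtain ⟨a, ha, b, hb, hab⟩ := Submodule.mem_sup.1 h2
    rw [← hab]
    refine add_mem ?_ ?_
    · obtain ⟨c, rfl⟩ := Submodule.mem_one.1 ha
      exact (IntermediateField.adjoin k (F.W i : Set Ω)).algebraMap_mem c
    · exact IntermediateField.subset_adjoin _ _ hb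
  have hgx : g * x ∈ F.E i := by
    refine F.ge_mem i hi _ ?_ ?_
    · rw [pow_succ]
      exact Submodule.mul_mem_mul hgX (Submodule.mem_sup_right hx)
    · have := (F.min i hi g hgE).mul (hX x hx)
      rwa [add_zero] at this
  have h2 := hfield _ hgx
  have h3 := hfield _ hgE
  have h4 : x = ((F.f i)⁻¹ * (g * x)) / ((F.f i)⁻¹ * g) := by
    have := F.ne i hi
    field_simp
  rw [h4]
  exact div_mem h2 h3

end Pool.Agent.ALB
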